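import Mathlib
import Pool.Agent.Lib_helper13.APT.Defs
import Pool.Agent.Lib_helper13.APTF.LB

/-!
# Two residue classes for every prime
-/

set_option autoImplicit false

namespace Pool.Agent.Lib_helper37.ML

open Finset Pool.Agent.APT

/-- `t` lies in one of the two classes of `q`. -/
def EE (c₁ c₂ : ℕ → ℕ) (q t : ℕ) : Prop := t ≡ c₁ q [MOD q] ∨ t ≡ c₂ q [MOD q]

instance (c₁ c₂ : ℕ → ℕ) (q : ℕ) : DecidablePred (EE c₁ c₂ q) := fun t => by
  unfold EE
  infer_instance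

/-- The number of the classes (one for the prime two). -/
def nn (c₁ c₂ : ℕ → ℕ) (q : ℕ) : ℕ := if c₁ q ≡ c₂ q [MOD q] ∨ q = 2 then 1 else 2

theorem nn_NU (c₁ c₂ : ℕ → ℕ) : NU (nn c₁ c₂) := by
  intro q
  unfold nn
  refine ⟨?_, ?_, ?_⟩
  · split_ifs <;> norm_num
  · split_ifs <;> norm_num
  · intro h
    rw [if_pos (Or.inr h)]

theorem cls_gen (c₁ c₂ : ℕ → ℕ) (h2 : c₁ 2 ≡ c₂ 2 [MOD 2]) (s X : ℕ) (D : Finset ℕ) :
    (∀ q ∈ D, q.Prime) → ∀ P r : ℕ, 0 < P → (∀ q ∈ D, Nat.Coprime P q) →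
    |(((Ico s (s + X)).filter (fun t => t ≡ r [MOD P] ∧ ∀ q ∈ D, EE c₁ c₂ q t)).card : ℝ)
      - X * (1 / (P : ℝ)) * ∏ q ∈ D, (nn c₁ c₂ q : ℝ) / q| ≤ ∏ q ∈ D, (nn c₁ c₂ q : ℝ) := by
  classical
  induction D using Finset.induction_on with
  | empty =>
    intro _ P r hP _
    have h := LB_count s X r hP
    have e : (Ico s (s + X)).filter (fun t => t ≡ r [MOD P] ∧
        ∀ q ∈ (∅ : Finset ℕ), EE c₁ c₂ q t) =
        (Ico s (s + X)).filter (fun t => t ≡ r [MOD P]) := by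
      apply Finset.filter_congr
      intro t _
      simp
    rw [e]
    simpa using h
  | insert q D hq ih =>
    intro hD P r hP hcop
    have hqp := hD q (Finset.mem_insert_self q D)
    have hPq := hcop q (Finset.mem_insert_self q D)
    have hD' : ∀ q' ∈ D, q'.Prime := fun q' h' => hD q' (Finset.mem_insert_of_mem h')
    have hcop' : ∀ q' ∈ D, Nat.Coprime (P * q) q' := by
      intro q' h'
      have h1 := hcop q' (Finset.mem_insert_of_mem h')
      have h3 : q ≠ q' := fun h => hq (h ▸ h')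
      exact Nat.Coprime.mul_left h1 ((Nat.coprime_primes hqp (hD' q' h')).2 h3)
    have hPq0 : 0 < P * q := Nat.mul_pos hP hqp.pos
    have hone : ∀ c : ℕ, ∃ r' : ℕ, ∀ t : ℕ, (t ≡ r [MOD P] ∧ t ≡ c [MOD q]) ↔
        t ≡ r' [MOD P * q] := by
      intro c
      obtain ⟨k, hk1, hk2⟩ := Nat.chineseRemainder hPq r c
      refine ⟨k, fun t => ?_⟩
      rw [← Nat.modEq_and_modEq_iff_modEq_mul hPq]
      constructor
      · rintro ⟨h1, h3⟩
        exact ⟨h1.trans hk1.symm, h3.trans hk2.symm⟩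
      · rintro ⟨h1, h3⟩
        exact ⟨h1.trans hk1, h3.trans hk2⟩
    have hcount : ∀ c : ℕ, |(((Ico s (s + X)).filter (fun t => (t ≡ r [MOD P] ∧ t ≡ c [MOD q]) ∧
        ∀ q ∈ D, EE c₁ c₂ q t)).card : ℝ)
        - X * (1 / ((P * q : ℕ) : ℝ)) * ∏ q ∈ D, (nn c₁ c₂ q : ℝ) / q| ≤
        ∏ q ∈ D, (nn c₁ c₂ q : ℝ) := by
      intro c
      obtain ⟨r', hr'⟩ := hone c
      have h3 := ih hD' (P * q) r' hPq0 hcop'
      have e : (Ico s (s + X)).filter (fun t => (t ≡ r [MOD P] ∧ t ≡ c [MOD q]) ∧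
          ∀ q ∈ D, EE c₁ c₂ q t) =
          (Ico s (s + X)).filter (fun t => t ≡ r' [MOD P * q] ∧ ∀ q ∈ D, EE c₁ c₂ q t) := by
        apply Finset.filter_congr
        intro t _
        rw [hr' t]
      rw [e]
      exact h3
    rw [Finset.prod_insert hq, Finset.prod_insert hq]
    have hPr : (0 : ℝ) < P := by exact_mod_cast hP
    have hqr : (0 : ℝ) < q := by exact_mod_cast hqp.pos
    have hPQ : (1 / ((P * q : ℕ) : ℝ)) = 1 / (P : ℝ) * (1 / q) := by
      push_cast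
      field_simp
    by_cases hdv : c₁ q ≡ c₂ q [MOD q]
    · have hν : nn c₁ c₂ q = 1 := by
        unfold nn; rw [if_pos (Or.inl hdv)]
      have e : (Ico s (s + X)).filter (fun t => t ≡ r [MOD P] ∧
          ∀ q' ∈ insert q D, EE c₁ c₂ q' t) =
          (Ico s (s + X)).filter (fun t => (t ≡ r [MOD P] ∧ t ≡ c₁ q [MOD q]) ∧
          ∀ q ∈ D, EE c₁ c₂ q t) := by
        apply Finset.filter_congr
        intro t _
        have hiff : EE c₁ c₂ q t ↔ t ≡ c₁ q [MOD q] := by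
          unfold EE
          constructor
          · rintro (h | h)
            · exact h
            · exact h.trans hdv.symm
          · intro h
            exact Or.inl h
        rw [Finset.forall_mem_insert, hiff]
        tauto
      rw [e, hν]
      have h3 := hcount (c₁ q)
      rw [hPQ] at h3
      have e2 : (X : ℝ) * (1 / (P : ℝ)) * (((1 : ℕ) : ℝ) / q *
          ∏ q ∈ D, (nn c₁ c₂ q : ℝ) / q) =
          X * (1 / (P : ℝ) * (1 / q)) * ∏ q ∈ D, (nn c₁ c₂ q : ℝ) / q := by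
        push_cast
        ring
      rw [e2]
      simpa using h3
    · have hq2 : q ≠ 2 := by
        rintro rfl
        exact hdv h2
      have hν : nn c₁ c₂ q = 2 := by
        unfold nn; rw [if_neg]
        rintro (h | h)
        · exact hdv h
        · exact hq2 h
      have e : (Ico s (s + X)).filter (fun t => t ≡ r [MOD P] ∧
          ∀ q' ∈ insert q D, EE c₁ c₂ q' t) =
          (Ico s (s + X)).filter (fun t => (t ≡ r [MOD P] ∧ t ≡ c₁ q [MOD q]) ∧
            ∀ q ∈ D, EE c₁ c₂ q t) ∪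
          (Ico s (s + X)).filter (fun t => (t ≡ r [MOD P] ∧ t ≡ c₂ q [MOD q]) ∧
            ∀ q ∈ D, EE c₁ c₂ q t) := by
        rw [← Finset.filter_or]
        apply Finset.filter_congr
        intro t _
        have hiff : EE c₁ c₂ q t ↔ (t ≡ c₁ q [MOD q] ∨ t ≡ c₂ q [MOD q]) := Iff.rfl
        rw [Finset.forall_mem_insert, hiff]
        tauto
      have hdisj : Disjoint ((Ico s (s + X)).filter (fun t => (t ≡ r [MOD P] ∧ t ≡ c₁ q [MOD q]) ∧
            ∀ q ∈ D, EE c₁ c₂ q t))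
          ((Ico s (s + X)).filter (fun t => (t ≡ r [MOD P] ∧ t ≡ c₂ q [MOD q]) ∧
            ∀ q ∈ D, EE c₁ c₂ q t)) := by
        rw [Finset.disjoint_filter]
        rintro t _ ⟨⟨_, h4⟩, _⟩ ⟨⟨_, h5⟩, _⟩
        exact hdv (h4.symm.trans h5)
      rw [e, Finset.card_union_of_disjoint hdisj, hν]
      have h3 := hcount (c₁ q)
      have h4 := hcount (c₂ q)
      rw [hPQ] at h3 h4
      rw [abs_le] at h3 h4 ⊢
      push_cast
      have e2 : (X : ℝ) * (1 / (P : ℝ)) * ((2 : ℝ) / q *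
          ∏ q ∈ D, (nn c₁ c₂ q : ℝ) / q) =
          2 * (X * (1 / (P : ℝ) * (1 / q)) * ∏ q ∈ D, (nn c₁ c₂ q : ℝ) / q) := by
        ring
      rw [e2]
      constructor <;> linarith [h3.1, h3.2, h4.1, h4.2]

/-- The sieve hypothesis for an interval. -/
theorem cls_SV (c₁ c₂ : ℕ → ℕ) (h2 : c₁ 2 ≡ c₂ 2 [MOD 2]) (s X z : ℕ) :
    SV (Ico s (s + X)) (EE c₁ c₂) X (nn c₁ c₂) z := by
  classical
  intro D hD
  have key := cls_gen c₁ c₂ h2 s X D (fun q hq => (Finset.mem_filter.1 (hD hq)).2) 1 0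
    Nat.one_pos (fun q _ => Nat.coprime_one_left q)
  have e : (Ico s (s + X)).filter (fun t => t ≡ 0 [MOD 1] ∧ ∀ q ∈ D, EE c₁ c₂ q t) =
      (Ico s (s + X)).filter (fun t => ∀ q ∈ D, EE c₁ c₂ q t) := by
    apply Finset.filter_congr
    intro t _
    simp [Nat.modEq_one]
  rw [e] at key
  simp only [Nat.cast_one, div_one, mul_one] at key
  convert key using 4
  refine congrArg Finset.card ?_
  ext t
  simp only [Finset.mem_filter]

/-- The sieve hypothesis for a residue class modulo a prime. -/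
theorem cls_SV_sub (c₁ c₂ : ℕ → ℕ) (h2 : c₁ 2 ≡ c₂ 2 [MOD 2]) (s X q r : ℕ) (hq : q.Prime) :
    SV ((Ico s (s + X)).filter (fun t => t ≡ r [MOD q])) (EE c₁ c₂) ((X : ℝ) / q)
      (nn c₁ c₂) (q - 1) := by
  classical
  intro D hD
  have hmem : ∀ p ∈ D, p.Prime ∧ p < q := by
    intro p hp
    have h1 := hD hp
    rw [Pz, Finset.mem_filter, Finset.mem_Icc] at h1
    have := hq.pos
    exact ⟨h1.2, by omega⟩
  have key := cls_gen c₁ c₂ h2 s X D (fun p hp => (hmem p hp).1) q r hq.pos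
    (fun p hp => (Nat.coprime_primes hq (hmem p hp).1).2 (hmem p hp).2.ne')
  have e3 : (X : ℝ) * (1 / (q : ℝ)) = X / q := by ring
  rw [e3] at key
  convert key using 4
  refine congrArg Finset.card ?_
  ext t
  simp only [Finset.mem_filter, and_assoc]

end Pool.Agent.Lib_helper37.ML
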