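import Mathlib
import Pool.Agent.Lib_helper13.APT.Defs
import Pool.Agent.Lib_helper13.APTF.SD
import Pool.Agent.Lib_helper13.APTF.SF
import Pool.Agent.Lib_helper13.APTF.SG1
import Pool.Agent.Lib_helper13.APTF.SG2
import Pool.Agent.Lib_helper13.APTF.VG
import Pool.Agent.Lib_helper37.ML.Cls

/-!
# A lower bound sieve of dimension two
-/

set_option autoImplicit false

namespace Pool.Agent.Lib_helper37.ML

open Finset Pool.Agent.APT

theorem vv_nonneg (ν : ℕ → ℕ) (hν : NU ν) (z : ℕ) : 0 ≤ VV ν z := sd_vv_nonneg ν z hν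

/-- The product over the primes in `[q, z]`. -/
theorem vv_ratio : ∃ C : ℝ, 1 ≤ C ∧ ∀ (ν : ℕ → ℕ) (z q : ℕ), NU ν → 3 ≤ q → q ≤ z →
    VV ν (q - 1) * Real.log q ^ 2 ≤ C * Real.log z ^ 2 * VV ν z := by
  obtain ⟨C, hC1, hC⟩ := vv_one_ge
  refine ⟨20 * C ^ 4, by nlinarith [pow_le_pow_left₀ (by norm_num : (0:ℝ) ≤ 1) hC1 4], ?_⟩
  intro ν z q hν hq3 hqz
  have hmono : Pz (q - 1) ⊆ Pz z := by
    intro p hp
    rw [SF_mem] at hp ⊢
    exact ⟨by omega, hp.2⟩
  obtain ⟨S, hS⟩ : ∃ S : Finset ℕ, S = Pz z \ Pz (q - 1) := ⟨_, rfl⟩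
  have hSmem : ∀ p ∈ S, p.Prime ∧ 3 ≤ p ∧ p ≤ z := by
    intro p hp
    rw [hS, Finset.mem_sdiff, SF_mem, SF_mem] at hp
    refine ⟨hp.1.2, ?_, hp.1.1⟩
    by_contra hcon
    exact hp.2 ⟨by omega, hp.1.2⟩
  have hsplit : ∀ μ : ℕ → ℕ, VV μ z = (∏ p ∈ S, (1 - (μ p : ℝ) / p)) * VV μ (q - 1) := by
    intro μ
    unfold VV
    rw [hS, Finset.prod_sdiff hmono]
  -- the weights
  have hw : ∀ p : ℕ, 3 ≤ p → 0 < 1 - 1 / (p : ℝ) ∧ 0 < 1 - 2 / (p : ℝ) ∧
      1 - 2 / (p : ℝ) ≤ (1 - 1 / (p : ℝ)) ^ 2 := by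
    intro p hp
    have h1 : (3 : ℝ) ≤ p := by exact_mod_cast hp
    have h2 : (0 : ℝ) < p := by linarith
    refine ⟨?_, ?_, ?_⟩
    · rw [sub_pos, div_lt_one h2]; linarith
    · rw [sub_pos, div_lt_one h2]; linarith
    · have h3 : (0 : ℝ) ≤ (1 / (p : ℝ)) ^ 2 := sq_nonneg _
      have h4 : (1 - 1 / (p : ℝ)) ^ 2 = 1 - 2 / (p : ℝ) + (1 / (p : ℝ)) ^ 2 := by ring
      rw [h4]
      linarith
  have hlow : ∏ p ∈ S, (1 - 2 / (p : ℝ)) ≤ ∏ p ∈ S, (1 - (ν p : ℝ) / p) := by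
    apply Finset.prod_le_prod
    · intro p hp
      exact (hw p (hSmem p hp).2.1).2.1.le
    · intro p hp
      have h1 : (0 : ℝ) < p := by exact_mod_cast (hSmem p hp).1.pos
      have h2 : (ν p : ℝ) ≤ 2 := by exact_mod_cast (hν p).2.1
      have h3 := div_le_div_of_nonneg_right h2 h1.le
      linarith
  have hwt : 3 / 5 * (∏ p ∈ S, (1 - 1 / (p : ℝ))) ^ 2 ≤ ∏ p ∈ S, (1 - 2 / (p : ℝ)) := by
    have h1 := wt_ge z 1
    have h2 : S ⊆ (Pz z).erase 2 := by
      intro p hp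
      rw [Finset.mem_erase]
      refine ⟨by have := (hSmem p hp).2.1; omega, ?_⟩
      rw [hS] at hp
      exact (Finset.mem_sdiff.1 hp).1
    have h3 : wt z 1 ≤ ∏ p ∈ S, (1 - 2 / (p : ℝ)) / (1 - 1 / (p : ℝ)) ^ 2 := by
      unfold wt
      rw [← Finset.prod_sdiff h2]
      have hval : ∀ p ∈ (Pz z).erase 2, (1 - (nu2 1 p : ℝ) / p) / (1 - 1 / (p : ℝ)) ^ 2 =
          (1 - 2 / (p : ℝ)) / (1 - 1 / (p : ℝ)) ^ 2 := by
        intro p hp
        obtain ⟨h4, h5, -⟩ := lc_three_le z p hp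
        rw [vg_nu2 h5, if_neg (by omega)]
        norm_num
      have h4 : ∏ p ∈ (Pz z).erase 2 \ S, (1 - (nu2 1 p : ℝ) / p) / (1 - 1 / (p : ℝ)) ^ 2 ≤ 1 := by
        apply Finset.prod_le_one
        · intro p hp
          have hp' := (Finset.mem_sdiff.1 hp).1
          rw [hval p hp']
          have h5 := hw p (lc_three_le z p hp').1
          exact div_nonneg h5.2.1.le (sq_nonneg _)
        · intro p hp
          have hp' := (Finset.mem_sdiff.1 hp).1
          rw [hval p hp']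
          have h5 := hw p (lc_three_le z p hp').1
          rw [div_le_one (pow_pos h5.1 2)]
          exact h5.2.2
      have h5 : ∏ p ∈ S, (1 - (nu2 1 p : ℝ) / p) / (1 - 1 / (p : ℝ)) ^ 2 =
          ∏ p ∈ S, (1 - 2 / (p : ℝ)) / (1 - 1 / (p : ℝ)) ^ 2 :=
        Finset.prod_congr rfl fun p hp => hval p (h2 hp)
      rw [h5]
      have h6 : 0 ≤ ∏ p ∈ S, (1 - 2 / (p : ℝ)) / (1 - 1 / (p : ℝ)) ^ 2 := by
        apply Finset.prod_nonneg
        intro p hp
        exact div_nonneg (hw p (hSmem p hp).2.1).2.1.le (sq_nonneg _)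
      calc _ ≤ 1 * ∏ p ∈ S, (1 - 2 / (p : ℝ)) / (1 - 1 / (p : ℝ)) ^ 2 :=
            mul_le_mul_of_nonneg_right h4 h6
        _ = _ := one_mul _
    rw [Finset.prod_div_distrib, Finset.prod_pow] at h3
    have h4 : 0 < (∏ p ∈ S, (1 - 1 / (p : ℝ))) ^ 2 :=
      pow_pos (Finset.prod_pos fun p hp => (hw p (hSmem p hp).2.1).1) 2
    have h5 := h1.trans h3
    rwa [le_div_iff₀ h4] at h5
  -- Mertens
  have hone := hsplit one
  have hone' : ∏ p ∈ S, (1 - ((one p : ℕ) : ℝ) / p) = ∏ p ∈ S, (1 - 1 / (p : ℝ)) := by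
    simp [one]
  rw [hone'] at hone
  have hz1 : (1 : ℝ) < z := by exact_mod_cast (by omega : 1 < z)
  have hL : 0 < Real.log z := Real.log_pos hz1
  obtain ⟨hp2, hp1⟩ := sg1_log_pred q hq3
  have hlq : 0 < Real.log q := Real.log_pos (by exact_mod_cast (by omega : 1 < q))
  obtain ⟨m1, -⟩ := hC z (by omega)
  obtain ⟨-, m2⟩ := hC (q - 1) (by omega)
  obtain ⟨Q, hQ⟩ : ∃ Q, Q = ∏ p ∈ S, (1 - 1 / (p : ℝ)) := ⟨_, rfl⟩
  have hQ0 : 0 ≤ Q := by
    rw [hQ]
    exact Finset.prod_nonneg fun p hp => (hw p (hSmem p hp).2.1).1.le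
  rw [← hQ] at hone hwt
  have hC0 : 0 < C := by linarith
  have hQ1 : Real.log q ≤ 2 * C ^ 2 * Real.log z * Q := by
    have h1 : VV one z ≤ Q * (C / Real.log ((q - 1 : ℕ) : ℝ)) := by
      rw [hone]
      exact mul_le_mul_of_nonneg_left m2 hQ0
    have h2 : 1 ≤ C * Real.log z * (Q * (C / Real.log ((q - 1 : ℕ) : ℝ))) :=
      m1.trans (mul_le_mul_of_nonneg_left h1 (by positivity))
    have h3 : C * Real.log z * (Q * (C / Real.log ((q - 1 : ℕ) : ℝ))) =
        C ^ 2 * Real.log z * Q / Real.log ((q - 1 : ℕ) : ℝ) := by ring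
    rw [h3, le_div_iff₀ hp1, one_mul] at h2
    linarith
  have hsq : Real.log q ^ 2 ≤ 4 * C ^ 4 * Real.log z ^ 2 * Q ^ 2 := by
    have h1 := pow_le_pow_left₀ hlq.le hQ1 2
    have h2 : (2 * C ^ 2 * Real.log z * Q) ^ 2 = 4 * C ^ 4 * Real.log z ^ 2 * Q ^ 2 := by ring
    rwa [h2] at h1
  have hVq := vv_nonneg ν hν (q - 1)
  have hfin : 3 / 5 * Q ^ 2 * VV ν (q - 1) ≤ VV ν z := by
    rw [hsplit ν]
    exact mul_le_mul_of_nonneg_right (hwt.trans hlow) hVq
  have h1 : Real.log q ^ 2 * VV ν (q - 1) ≤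
      4 * C ^ 4 * Real.log z ^ 2 * Q ^ 2 * VV ν (q - 1) :=
    mul_le_mul_of_nonneg_right hsq hVq
  have h2 : 4 * C ^ 4 * Real.log z ^ 2 * Q ^ 2 * VV ν (q - 1) ≤
      20 / 3 * C ^ 4 * Real.log z ^ 2 * VV ν z := by
    have h3 : 4 * C ^ 4 * Real.log z ^ 2 * Q ^ 2 * VV ν (q - 1) =
        20 / 3 * C ^ 4 * Real.log z ^ 2 * (3 / 5 * Q ^ 2 * VV ν (q - 1)) := by ring
    rw [h3]
    exact mul_le_mul_of_nonneg_left hfin (by positivity)
  have hVz := vv_nonneg ν hν z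
  have h4 : 20 / 3 * C ^ 4 * Real.log z ^ 2 * VV ν z ≤ 20 * C ^ 4 * Real.log z ^ 2 * VV ν z := by
    have h5 : 0 ≤ C ^ 4 * Real.log z ^ 2 * VV ν z := by positivity
    nlinarith
  calc VV ν (q - 1) * Real.log q ^ 2 = Real.log q ^ 2 * VV ν (q - 1) := mul_comm _ _
    _ ≤ _ := h1.trans (h2.trans h4)

theorem exp_cube (t u : ℝ) (ht : 1 ≤ t) (hu : 15 ≤ u) :
    t ^ 3 * Real.exp (-(2 / 5 * (u * t))) ≤ Real.exp (-(1 / 5 * u)) := by
  have h1 : -(2 / 5 * (u * t)) ≤ -(1 / 5 * u) + -(3 * t) := by nlinarith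
  have h3 : t ≤ Real.exp t := by linarith [Real.add_one_le_exp t]
  have h4 : t ^ 3 ≤ Real.exp (3 * t) := by
    have h5 : Real.exp (3 * t) = Real.exp t ^ 3 := by
      rw [← Real.exp_nat_mul]
      norm_num
    rw [h5]
    exact pow_le_pow_left₀ (by linarith) h3 3
  calc t ^ 3 * Real.exp (-(2 / 5 * (u * t)))
      ≤ Real.exp (3 * t) * Real.exp (-(1 / 5 * u) + -(3 * t)) :=
        mul_le_mul h4 (Real.exp_le_exp.mpr h1) (Real.exp_pos _).le (Real.exp_pos _).le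
    _ = Real.exp (-(1 / 5 * u)) := by
        rw [← Real.exp_add]
        congr 1
        ring

theorem err2 : ∃ C : ℝ, 1 ≤ C ∧ ∀ (ν : ℕ → ℕ) (z : ℕ) (u : ℝ), NU ν → 2 ≤ z → 15 ≤ u →
    ∑ q ∈ (Pz z).erase 2, (ν q : ℝ) / q * VV ν (q - 1) *
      Real.exp (-(2 / 5 * (u * Real.log z / Real.log q))) ≤
      C * Real.exp (-(1 / 5 * u)) * VV ν z := by
  obtain ⟨C, hC1, hC⟩ := vv_ratio
  refine ⟨6 * C, by linarith, ?_⟩
  intro ν z u hν hz hu
  have hz1 : (1 : ℝ) < z := by exact_mod_cast (by omega : 1 < z)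
  have hL : 0 < Real.log z := Real.log_pos hz1
  have hE : 0 < Real.exp (-(1 / 5 * u)) := Real.exp_pos _
  have hC0 : 0 < C := by linarith
  have hVz := vv_nonneg ν hν z
  have hterm : ∀ q ∈ (Pz z).erase 2, (ν q : ℝ) / q * VV ν (q - 1) *
      Real.exp (-(2 / 5 * (u * Real.log z / Real.log q))) ≤
      (Real.exp (-(1 / 5 * u)) * (2 * C) * VV ν z / Real.log z) * (Real.log q / q) := by
    intro q hq
    obtain ⟨hq3, hqp, hqz⟩ := lc_three_le z q hq
    have hq1 : (1 : ℝ) < q := by exact_mod_cast (by omega : 1 < q)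
    have hq0 : (0 : ℝ) < q := by linarith
    have hl : 0 < Real.log q := Real.log_pos hq1
    have hlL : Real.log q ≤ Real.log z := Real.log_le_log hq0 (by exact_mod_cast hqz)
    have h1 := hC ν z q hν hq3 hqz
    have ht : 1 ≤ Real.log z / Real.log q := by
      rw [le_div_iff₀ hl]; linarith
    have h4 := exp_cube (Real.log z / Real.log q) u ht hu
    have h5 : u * (Real.log z / Real.log q) = u * Real.log z / Real.log q := by ring
    rw [h5] at h4
    have h2 : (ν q : ℝ) ≤ 2 := by exact_mod_cast (hν q).2.1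
    have hν0 : (0 : ℝ) ≤ ν q := Nat.cast_nonneg _
    have hVq := vv_nonneg ν hν (q - 1)
    have hX := Real.exp_pos (-(2 / 5 * (u * Real.log z / Real.log q)))
    obtain ⟨Ex, hEx⟩ : ∃ Ex, Ex = Real.exp (-(2 / 5 * (u * Real.log z / Real.log q))) := ⟨_, rfl⟩
    rw [← hEx] at h4 hX ⊢
    have h6 : VV ν (q - 1) ≤ C * (Real.log z / Real.log q) ^ 2 * VV ν z := by
      rw [div_pow]
      have h7 : C * (Real.log z ^ 2 / Real.log q ^ 2) * VV ν z =
          C * Real.log z ^ 2 * VV ν z / Real.log q ^ 2 := by ring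
      rw [h7, le_div_iff₀ (by positivity)]
      exact h1
    have h8 : (Real.log z / Real.log q) ^ 2 * Ex ≤
        Real.exp (-(1 / 5 * u)) * (Real.log q / Real.log z) := by
      have h9 : (Real.log z / Real.log q) ^ 2 * Ex =
          ((Real.log z / Real.log q) ^ 3 * Ex) * (Real.log q / Real.log z) := by
        field_simp
      rw [h9]
      exact mul_le_mul_of_nonneg_right h4 (by positivity)
    calc (ν q : ℝ) / q * VV ν (q - 1) * Ex
        ≤ 2 / q * (C * (Real.log z / Real.log q) ^ 2 * VV ν z) * Ex := by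
          apply mul_le_mul_of_nonneg_right _ hX.le
          exact mul_le_mul (div_le_div_of_nonneg_right h2 hq0.le) h6 hVq (by positivity)
      _ = 2 / q * C * VV ν z * ((Real.log z / Real.log q) ^ 2 * Ex) := by ring
      _ ≤ 2 / q * C * VV ν z * (Real.exp (-(1 / 5 * u)) * (Real.log q / Real.log z)) :=
          mul_le_mul_of_nonneg_left h8 (by positivity)
      _ = _ := by ring
  have hsum : ∑ q ∈ (Pz z).erase 2, Real.log q / q ≤ 3 * Real.log z := by
    have h1 : ∑ q ∈ (Pz z).erase 2, Real.log (q : ℝ) / q ≤ ∑ q ∈ Pz z, Real.log (q : ℝ) / q := by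
      apply Finset.sum_le_sum_of_subset_of_nonneg (Finset.erase_subset _ _)
      intro p hp _
      exact div_nonneg (sg1_logp hp) (by positivity)
    have h2 := sg1_sum_log z hz
    have h3 : Real.log 4 ≤ 2 * Real.log z := by
      have h4 : Real.log 4 = 2 * Real.log 2 := by
        rw [show (4 : ℝ) = 2 ^ 2 by norm_num, Real.log_pow]; norm_num
      have h5 : Real.log 2 ≤ Real.log z := Real.log_le_log (by norm_num) (by exact_mod_cast hz)
      linarith
    linarith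
  have hfac : 0 ≤ Real.exp (-(1 / 5 * u)) * (2 * C) * VV ν z / Real.log z := by positivity
  calc ∑ q ∈ (Pz z).erase 2, (ν q : ℝ) / q * VV ν (q - 1) *
        Real.exp (-(2 / 5 * (u * Real.log z / Real.log q)))
      ≤ ∑ q ∈ (Pz z).erase 2, (Real.exp (-(1 / 5 * u)) * (2 * C) * VV ν z / Real.log z) *
          (Real.log q / q) := Finset.sum_le_sum hterm
    _ = (Real.exp (-(1 / 5 * u)) * (2 * C) * VV ν z / Real.log z) *
          ∑ q ∈ (Pz z).erase 2, (Real.log q / q) := by rw [Finset.mul_sum]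
    _ ≤ (Real.exp (-(1 / 5 * u)) * (2 * C) * VV ν z / Real.log z) * (3 * Real.log z) :=
        mul_le_mul_of_nonneg_left hsum hfac
    _ = 6 * C * Real.exp (-(1 / 5 * u)) * VV ν z := by field_simp; ring

theorem term2 {ι : Type} (ν : ℕ → ℕ) (hν : NU ν) (C₁ : ℝ) (hC₁ : 1 ≤ C₁)
    (hup : ∀ (A : Finset ι) (E : ℕ → ι → Prop) (X : ℝ)
      (ν : ℕ → ℕ) (z : ℕ) (R : ℝ), 0 ≤ X → 1 ≤ R → NU ν → 2 ≤ z →
      C₁ * Real.log z ≤ Real.log R → SV A E X ν z →
      ((sif A E z).card : ℝ) ≤ X * VV ν z * (1 + C₁ * Real.exp (-(Real.log R / Real.log z))) +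
        C₁ * R ^ (11 / 5 : ℝ))
    (A : Finset ι) (E : ℕ → ι → Prop) (X : ℝ) (z q : ℕ) (u : ℝ) (hX : 1 ≤ X) (hq3 : 3 ≤ q)
    (hqz : q ≤ z) (hu : 1 + 5 / 2 * C₁ ≤ u) (huX : u * Real.log z ≤ Real.log X)
    (hA : SV A E (X / q) ν (q - 1)) :
    ((sif A E (q - 1)).card : ℝ) ≤ X * (1 / (q : ℝ) * VV ν (q - 1)) +
      X * (2 * C₁) * (1 / (q : ℝ) * VV ν (q - 1) *
        Real.exp (-(2 / 5 * (u * Real.log z / Real.log q)))) + C₁ * X ^ (22 / 25 : ℝ) := by
  have hX0 : 0 < X := by linarith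
  have hq1 : (1 : ℝ) < q := by exact_mod_cast (by omega : 1 < q)
  have hq0 : (0 : ℝ) < q := by linarith
  have hl : 0 < Real.log q := Real.log_pos hq1
  have hlL : Real.log q ≤ Real.log z := Real.log_le_log hq0 (by exact_mod_cast hqz)
  have hp1 : (1 : ℝ) < ((q - 1 : ℕ) : ℝ) := by exact_mod_cast (by omega : 1 < q - 1)
  have hlp : 0 < Real.log ((q - 1 : ℕ) : ℝ) := Real.log_pos hp1
  have hlpq : Real.log ((q - 1 : ℕ) : ℝ) ≤ Real.log q :=
    Real.log_le_log (by linarith) (by exact_mod_cast Nat.sub_le q 1)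
  have hu0 : 0 ≤ u := by linarith
  have huq : u * Real.log q ≤ Real.log X :=
    (mul_le_mul_of_nonneg_left hlL hu0).trans huX
  have hlogdiv : Real.log (X / q) = Real.log X - Real.log q :=
    Real.log_div hX0.ne' hq0.ne'
  have hdiff : 5 / 2 * C₁ * Real.log q ≤ Real.log X - Real.log q := by nlinarith
  have hqX : (q : ℝ) ≤ X := by
    have h1 : Real.log q ≤ Real.log X := by nlinarith
    exact (Real.log_le_log_iff hq0 hX0).mp h1
  have hXq1 : 1 ≤ X / q := by rw [le_div_iff₀ hq0]; linarith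
  have hXq0 : 0 < X / q := by linarith
  obtain ⟨R, hR⟩ : ∃ R : ℝ, R = (X / q) ^ (2 / 5 : ℝ) := ⟨_, rfl⟩
  have hR1 : 1 ≤ R := by rw [hR]; exact Real.one_le_rpow hXq1 (by norm_num)
  have hlogR : Real.log R = 2 / 5 * (Real.log X - Real.log q) := by
    rw [hR, Real.log_rpow hXq0, hlogdiv]
  have hcond : C₁ * Real.log ((q - 1 : ℕ) : ℝ) ≤ Real.log R := by
    rw [hlogR]
    have h1 : C₁ * Real.log ((q - 1 : ℕ) : ℝ) ≤ C₁ * Real.log q :=
      mul_le_mul_of_nonneg_left hlpq (by linarith)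
    linarith
  have hmain := hup A E (X / q) ν (q - 1) R hXq0.le hR1 hν (by omega) hcond hA
  have hRp : R ^ (11 / 5 : ℝ) ≤ X ^ (22 / 25 : ℝ) := by
    rw [hR, ← Real.rpow_mul hXq0.le]
    have h1 : (2 / 5 * (11 / 5) : ℝ) = 22 / 25 := by norm_num
    rw [h1]
    apply Real.rpow_le_rpow hXq0.le _ (by norm_num)
    rw [div_le_iff₀ hq0]
    nlinarith
  have hexp : Real.exp (-(Real.log R / Real.log ((q - 1 : ℕ) : ℝ))) ≤
      2 * Real.exp (-(2 / 5 * (u * Real.log z / Real.log q))) := by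
    have h1 : 2 / 5 * (u * Real.log z / Real.log q) - 2 / 5 ≤
        Real.log R / Real.log ((q - 1 : ℕ) : ℝ) := by
      have h2 : Real.log R / Real.log q ≤ Real.log R / Real.log ((q - 1 : ℕ) : ℝ) :=
        div_le_div_of_nonneg_left (Real.log_nonneg hR1) hlp hlpq
      refine le_trans ?_ h2
      rw [hlogR, le_div_iff₀ hl]
      have h3 : (2 / 5 * (u * Real.log z / Real.log q) - 2 / 5) * Real.log q =
          2 / 5 * (u * Real.log z) - 2 / 5 * Real.log q := by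
        field_simp
      rw [h3]
      linarith
    calc Real.exp (-(Real.log R / Real.log ((q - 1 : ℕ) : ℝ)))
        ≤ Real.exp (2 / 5 + -(2 / 5 * (u * Real.log z / Real.log q))) :=
          Real.exp_le_exp.mpr (by linarith)
      _ = Real.exp (2 / 5) * Real.exp (-(2 / 5 * (u * Real.log z / Real.log q))) :=
          Real.exp_add _ _
      _ ≤ _ := mul_le_mul_of_nonneg_right sg2_exp (Real.exp_pos _).le
  have hV := vv_nonneg ν hν (q - 1)
  have hXV : 0 ≤ X / q * VV ν (q - 1) := mul_nonneg hXq0.le hV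
  calc ((sif A E (q - 1)).card : ℝ)
      ≤ X / q * VV ν (q - 1) *
          (1 + C₁ * Real.exp (-(Real.log R / Real.log ((q - 1 : ℕ) : ℝ)))) +
        C₁ * R ^ (11 / 5 : ℝ) := hmain
    _ ≤ X / q * VV ν (q - 1) *
          (1 + C₁ * (2 * Real.exp (-(2 / 5 * (u * Real.log z / Real.log q))))) +
        C₁ * X ^ (22 / 25 : ℝ) := by
        apply add_le_add
        · apply mul_le_mul_of_nonneg_left _ hXV
          have := mul_le_mul_of_nonneg_left hexp (by linarith : (0 : ℝ) ≤ C₁)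
          linarith
        · exact mul_le_mul_of_nonneg_left hRp (by linarith)
    _ = _ := by ring

end Pool.Agent.Lib_helper37.ML
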