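import Pool.Agent.Lib_helper13.APTF.SH
import Pool.Agent.Lib_helper37.ML.Low

/-!
# The lower bound sieve of dimension two: the theorem
-/

set_option autoImplicit false

namespace Pool.Agent.Lib_helper37.ML

open Finset Pool.Agent.APT

theorem lower2 : ∃ C : ℝ, 1 ≤ C ∧ ∀ (c₁ c₂ : ℕ → ℕ), c₁ 2 ≡ c₂ 2 [MOD 2] →
    ∀ (s N z : ℕ) (u : ℝ), 1 ≤ (N : ℝ) → 2 ≤ z → C ≤ u → u * Real.log z ≤ Real.log N →
    N * VV (nn c₁ c₂) z * (1 - C * Real.exp (-(1 / 5 * u))) - C * (N : ℝ) ^ (19 / 20 : ℝ) ≤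
      ((sif (Ico s (s + N)) (EE c₁ c₂) z).card : ℝ) := by
  obtain ⟨C₁, hC₁, hup⟩ := upper
  obtain ⟨C₂, hC₂, herr⟩ := err2
  refine ⟨20 + 4 * C₁ + 2 * C₁ * C₂, by nlinarith, ?_⟩
  intro c₁ c₂ h2 s N z u hX hz hu huX
  classical
  obtain ⟨X, hXN⟩ : ∃ X : ℝ, X = N := ⟨_, rfl⟩
  obtain ⟨ν, hν⟩ : ∃ ν, ν = nn c₁ c₂ := ⟨_, rfl⟩
  obtain ⟨A, hA⟩ : ∃ A, A = Ico s (s + N) := ⟨_, rfl⟩
  obtain ⟨E, hE⟩ : ∃ E, E = EE c₁ c₂ := ⟨_, rfl⟩
  have hNU : NU ν := by rw [hν]; exact nn_NU c₁ c₂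
  have hSV : SV A E X ν z := by
    rw [hA, hE, hXN, hν]
    exact cls_SV c₁ c₂ h2 s N z
  have hSVs : ∀ q r : ℕ, q.Prime → SV (A.filter (fun t => t ≡ r [MOD q])) E (X / q) ν (q - 1) := by
    intro q r hq
    rw [hA, hE, hXN, hν]
    exact cls_SV_sub c₁ c₂ h2 s N q r hq
  rw [← hXN, ← hν, ← hA, ← hE]
  rw [← hXN] at hX huX
  have hX0 : 0 < X := by linarith
  have hCC : 0 ≤ C₁ * C₂ := mul_nonneg (by linarith) (by linarith)
  have h2mem : 2 ∈ Pz z := lc_two_mem z hz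
  -- Buchstab
  have hb := buch A E z
  have hb' : ((sif A E z).card : ℝ) = (A.card : ℝ) -
      ∑ q ∈ Pz z, ((sif (A.filter (E q)) E (q - 1)).card : ℝ) := by
    exact_mod_cast hb
  rw [← Finset.add_sum_erase _ _ h2mem] at hb'
  -- the set itself
  have hA1 : X - 1 ≤ (A.card : ℝ) := by
    have h := hSV ∅ (Finset.empty_subset _)
    simp only [Finset.notMem_empty, false_imp_iff, implies_true, Finset.filter_true,
      Finset.prod_empty, mul_one] at h
    have := (abs_le.mp h).1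
    linarith
  -- the prime two
  have hA2 : ((sif (A.filter (E 2)) E (2 - 1)).card : ℝ) ≤ X / 2 + 1 := by
    have h := hSV {2} (by rw [Finset.singleton_subset_iff]; exact h2mem)
    have h1 : ∀ d : DecidablePred (fun a => ∀ q ∈ ({2} : Finset ℕ), E q a),
        (sif (A.filter (E 2)) E (2 - 1)).card ≤
        (@Finset.filter ℕ (fun a => ∀ q ∈ ({2} : Finset ℕ), E q a) d A).card := by
      intro d
      apply Finset.card_le_card
      intro a ha
      rw [sif, Finset.mem_filter, Finset.mem_filter] at ha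
      refine (@Finset.mem_filter _ _ d _ _).mpr ⟨ha.1.1, ?_⟩
      intro q hq
      rw [Finset.mem_singleton] at hq
      rw [hq]
      exact ha.1.2
    rw [Finset.prod_singleton, Finset.prod_singleton] at h
    have h3 := sub_le_iff_le_add.mp (abs_le.mp h).2
    have h6 := (Nat.cast_le (α := ℝ).mpr (h1 _)).trans h3
    have h4 : ((ν 2 : ℕ) : ℝ) = 1 := by rw [(hNU 2).2.2 rfl]; norm_num
    rw [h4] at h6
    push_cast at h6
    linarith
  -- the other primes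
  have hq : ∀ q ∈ (Pz z).erase 2, ((sif (A.filter (E q)) E (q - 1)).card : ℝ) ≤
      X * ((ν q : ℝ) / q * VV ν (q - 1)) +
      X * (2 * C₁) * ((ν q : ℝ) / q * VV ν (q - 1) *
        Real.exp (-(2 / 5 * (u * Real.log z / Real.log q)))) + 2 * C₁ * X ^ (22 / 25 : ℝ) := by
    intro q hq
    obtain ⟨hq3, hqp, hqz⟩ := lc_three_le z q hq
    have hcls : ∀ r : ℕ, ((sif (A.filter (fun t => t ≡ r [MOD q])) E (q - 1)).card : ℝ) ≤
        X * (1 / (q : ℝ) * VV ν (q - 1)) +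
        X * (2 * C₁) * (1 / (q : ℝ) * VV ν (q - 1) *
        Real.exp (-(2 / 5 * (u * Real.log z / Real.log q)))) + C₁ * X ^ (22 / 25 : ℝ) := fun r =>
      term2 ν hNU C₁ hC₁ hup (A.filter (fun t => t ≡ r [MOD q])) E X z q u hX hq3 hqz
        (by linarith) huX (hSVs q r hqp)
    have hX22 : 0 ≤ X ^ (22 / 25 : ℝ) := Real.rpow_nonneg hX0.le _
    have hXX : 0 ≤ C₁ * X ^ (22 / 25 : ℝ) := mul_nonneg (by linarith) hX22
    by_cases hdv : c₁ q ≡ c₂ q [MOD q]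
    · have hν1 : (ν q : ℝ) = 1 := by
        rw [hν]
        unfold nn
        rw [if_pos (Or.inl hdv)]
        norm_num
      have h4 : (sif (A.filter (E q)) E (q - 1)).card ≤
          (sif (A.filter (fun t => t ≡ c₁ q [MOD q])) E (q - 1)).card := by
        apply Finset.card_le_card
        intro t ht
        rw [SF_mem_sif, Finset.mem_filter] at ht ⊢
        refine ⟨⟨ht.1.1, ?_⟩, ht.2⟩
        have h5 := ht.1.2
        rw [hE] at h5
        rcases h5 with h5 | h5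
        · exact h5
        · exact h5.trans hdv.symm
      have h5 : ((sif (A.filter (E q)) E (q - 1)).card : ℝ) ≤
          ((sif (A.filter (fun t => t ≡ c₁ q [MOD q])) E (q - 1)).card : ℝ) := by
        exact_mod_cast h4
      refine h5.trans ((hcls (c₁ q)).trans ?_)
      rw [hν1]
      linarith
    · have hν2 : (ν q : ℝ) = 2 := by
        rw [hν]
        unfold nn
        rw [if_neg]
        · norm_num
        · rintro (h | h)
          · exact hdv h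
          · omega
      have h4 : (sif (A.filter (E q)) E (q - 1)).card ≤
          (sif (A.filter (fun t => t ≡ c₁ q [MOD q])) E (q - 1)).card +
          (sif (A.filter (fun t => t ≡ c₂ q [MOD q])) E (q - 1)).card := by
        refine (Finset.card_le_card ?_).trans (Finset.card_union_le _ _)
        intro t ht
        rw [Finset.mem_union, SF_mem_sif, SF_mem_sif, Finset.mem_filter, Finset.mem_filter]
        rw [SF_mem_sif, Finset.mem_filter] at ht
        have h5 := ht.1.2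
        rw [hE] at h5
        rcases h5 with h5 | h5
        · exact Or.inl ⟨⟨ht.1.1, h5⟩, ht.2⟩
        · exact Or.inr ⟨⟨ht.1.1, h5⟩, ht.2⟩
      have h5 : ((sif (A.filter (E q)) E (q - 1)).card : ℝ) ≤
          ((sif (A.filter (fun t => t ≡ c₁ q [MOD q])) E (q - 1)).card : ℝ) +
          ((sif (A.filter (fun t => t ≡ c₂ q [MOD q])) E (q - 1)).card : ℝ) := by
        exact_mod_cast h4
      have h6 := hcls (c₁ q)
      have h7 := hcls (c₂ q)
      rw [hν2]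
      have e : (2 : ℝ) / q = 2 * (1 / q) := by ring
      rw [e]
      linarith
  have hsum := Finset.sum_le_sum hq
  rw [Finset.sum_add_distrib, Finset.sum_add_distrib, ← Finset.mul_sum, ← Finset.mul_sum,
    Finset.sum_const, nsmul_eq_mul] at hsum
  -- the main terms
  have hvb := vv_buch ν z
  rw [← Finset.add_sum_erase _ _ h2mem] at hvb
  have hV1 : VV ν (2 - 1) = 1 := by
    have : Pz (2 - 1) = ∅ := by decide
    rw [VV, this, Finset.prod_empty]
  have h2ν : ((ν 2 : ℕ) : ℝ) = 1 := by rw [(hNU 2).2.2 rfl]; norm_num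
  rw [hV1, h2ν] at hvb
  push_cast at hvb
  have hmain : ∑ q ∈ (Pz z).erase 2, (ν q : ℝ) / q * VV ν (q - 1) = 1 / 2 - VV ν z := by
    linarith
  rw [hmain] at hsum
  have hEr := herr ν z u hNU hz (by linarith)
  have hcard : (((Pz z).erase 2).card : ℝ) ≤ z := by
    have h1 : ((Pz z).erase 2).card ≤ z := by
      calc ((Pz z).erase 2).card ≤ (Pz z).card := Finset.card_le_card (Finset.erase_subset _ _)
        _ ≤ (Icc 1 z).card := Finset.card_filter_le _ _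
        _ = z := by simp
    exact_mod_cast h1
  have hpow := sg2_pow X z u hX hz (by linarith) huX
  have hX22 : 0 ≤ X ^ (22 / 25 : ℝ) := Real.rpow_nonneg hX0.le _
  have hX19 : 1 ≤ X ^ (19 / 20 : ℝ) := Real.one_le_rpow hX (by norm_num)
  have hlast : (((Pz z).erase 2).card : ℝ) * (2 * C₁ * X ^ (22 / 25 : ℝ)) ≤
      2 * C₁ * X ^ (19 / 20 : ℝ) := by
    calc (((Pz z).erase 2).card : ℝ) * (2 * C₁ * X ^ (22 / 25 : ℝ))
        ≤ (z : ℝ) * (2 * C₁ * X ^ (22 / 25 : ℝ)) :=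
          mul_le_mul_of_nonneg_right hcard (mul_nonneg (by linarith) hX22)
      _ = 2 * C₁ * ((z : ℝ) * X ^ (22 / 25 : ℝ)) := by ring
      _ ≤ _ := mul_le_mul_of_nonneg_left hpow (by linarith)
  have hV := vv_nonneg ν hNU z
  have herr' : X * (2 * C₁) * ∑ q ∈ (Pz z).erase 2, ((ν q : ℝ) / q * VV ν (q - 1) *
        Real.exp (-(2 / 5 * (u * Real.log z / Real.log q)))) ≤
      X * (2 * C₁) * (C₂ * Real.exp (-(1 / 5 * u)) * VV ν z) :=
    mul_le_mul_of_nonneg_left hEr (mul_nonneg hX0.le (by linarith))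
  have hW : 0 ≤ X * VV ν z * Real.exp (-(1 / 5 * u)) :=
    mul_nonneg (mul_nonneg hX0.le hV) (Real.exp_pos _).le
  have hW1 : 2 * C₁ * C₂ * (X * VV ν z * Real.exp (-(1 / 5 * u))) ≤
      (20 + 4 * C₁ + 2 * C₁ * C₂) * (X * VV ν z * Real.exp (-(1 / 5 * u))) :=
    mul_le_mul_of_nonneg_right (by linarith) hW
  have hZ1 : (2 + 2 * C₁) * X ^ (19 / 20 : ℝ) ≤ (20 + 4 * C₁ + 2 * C₁ * C₂) * X ^ (19 / 20 : ℝ) :=
    mul_le_mul_of_nonneg_right (by linarith) (by linarith)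
  have hfin1 : X * VV ν z * (1 - (20 + 4 * C₁ + 2 * C₁ * C₂) * Real.exp (-(1 / 5 * u))) =
      X * VV ν z - (20 + 4 * C₁ + 2 * C₁ * C₂) *
        (X * VV ν z * Real.exp (-(1 / 5 * u))) := by ring
  have hfin2 : X * (2 * C₁) * (C₂ * Real.exp (-(1 / 5 * u)) * VV ν z) =
      2 * C₁ * C₂ * (X * VV ν z * Real.exp (-(1 / 5 * u))) := by ring
  rw [hfin2] at herr'
  rw [hfin1, hb']
  linarith

/-- An interval of length at least `z ^ u` contains an integer outside two classes for every prime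
up to `z` (one class for the prime two). -/
theorem sieve : ∃ (u X₀ : ℕ), 1 ≤ u ∧ ∀ (c₁ c₂ : ℕ → ℕ), c₁ 2 ≡ c₂ 2 [MOD 2] →
    ∀ (s N z : ℕ), X₀ ≤ N → 2 ≤ z → z ^ u ≤ N →
    ∃ t, s ≤ t ∧ t < s + N ∧ ∀ q : ℕ, q.Prime → q ≤ z →
      ¬ t ≡ c₁ q [MOD q] ∧ ¬ t ≡ c₂ q [MOD q] := by
  obtain ⟨C2, hC2, hlo⟩ := lower2
  obtain ⟨C3, hC3, hvv⟩ := vv_ge
  obtain ⟨Xb, hXb1, hXb⟩ := sh_growth (2 * C2 * C3 / (1 / 2))
  obtain ⟨M, hM⟩ : ∃ M : ℝ, M = C2 + 5 * (2 * C2 / (1 / 2)) := ⟨_, rfl⟩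
  have huM : M ≤ (⌈M⌉₊ : ℝ) := Nat.le_ceil M
  refine ⟨⌈M⌉₊, ⌈Xb⌉₊, ?_, ?_⟩
  · have : (0 : ℝ) < (⌈M⌉₊ : ℝ) := by linarith
    exact_mod_cast this
  intro c₁ c₂ h2 s N z hN hz hzN
  have hX : Xb ≤ (N : ℝ) := (Nat.le_ceil Xb).trans (by exact_mod_cast hN)
  have hX1 : (1 : ℝ) ≤ N := hXb1.trans hX
  have hX0 : (0 : ℝ) < N := by linarith
  have hz' : (2 : ℝ) ≤ z := by exact_mod_cast hz
  have hlz : 0 < Real.log z := Real.log_pos (by linarith)
  obtain ⟨u, hu⟩ : ∃ u : ℝ, u = (⌈M⌉₊ : ℝ) := ⟨_, rfl⟩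
  rw [← hu] at huM
  have hul : u * Real.log z ≤ Real.log N := by
    have h1 : Real.log ((z : ℝ) ^ ⌈M⌉₊) ≤ Real.log N :=
      Real.log_le_log (by positivity) (by exact_mod_cast hzN)
    rwa [Real.log_pow, ← hu] at h1
  have hlL : Real.log z ≤ Real.log N := by
    have h1 : 1 * Real.log z ≤ u * Real.log z := by
      apply mul_le_mul_of_nonneg_right _ hlz.le
      linarith
    linarith
  have h := hlo c₁ c₂ h2 s N z u hX1 hz (by linarith) hul
  have hV := hvv (nn c₁ c₂) z (nn_NU c₁ c₂) hz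
  have hV0 : 0 < VV (nn c₁ c₂) z := by
    by_contra hneg
    have : C3 * Real.log z ^ 2 * VV (nn c₁ c₂) z ≤ 0 :=
      mul_nonpos_of_nonneg_of_nonpos (by positivity) (not_lt.mp hneg)
    linarith
  have herr := sh_err C2 C3 (1 / 2) N (VV (nn c₁ c₂) z) (Real.log z) hX1 (by norm_num) hC2 hC3
    hlz hlL hV (hXb N hX)
  have hexp : C2 * Real.exp (-(1 / 5 * u)) ≤ (1 / 2) / 2 := by
    apply sh_exp C2 (1 / 2) _ hC2 (by norm_num)
    linarith
  have hXV : 0 < (N : ℝ) * VV (nn c₁ c₂) z := by positivity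
  have h7 : (N : ℝ) * VV (nn c₁ c₂) z * (1 - (1 / 2) / 2) ≤
      N * VV (nn c₁ c₂) z * (1 - C2 * Real.exp (-(1 / 5 * u))) :=
    mul_le_mul_of_nonneg_left (by linarith) hXV.le
  have hpos : (0 : ℝ) < ((sif (Ico s (s + N)) (EE c₁ c₂) z).card : ℝ) := by
    refine lt_of_lt_of_le ?_ h
    linarith
  have hpos' : 0 < (sif (Ico s (s + N)) (EE c₁ c₂) z).card := by exact_mod_cast hpos
  obtain ⟨t, ht⟩ := Finset.card_pos.1 hpos'
  rw [SF_mem_sif, Finset.mem_Ico] at ht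
  refine ⟨t, ht.1.1, ht.1.2, ?_⟩
  intro q hq hqz
  have h8 := ht.2 q (SF_mem.2 ⟨hqz, hq⟩)
  unfold EE at h8
  push Not at h8
  exact h8

end Pool.Agent.Lib_helper37.ML
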