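import Mathlib

/-!
# Changing a group table in a small block
-/

set_option autoImplicit false

namespace Pool.Agent.Lib_helper37.ML

/-- The latin square with rows `X`, columns `Y` and symbols `Z` is isotopic to a group. -/
def GB {Λ W : Type} (X Y Z : Λ → W) : Prop :=
  ∃ (G : Type) (_ : Group G) (α β γ : W ≃ G), ∀ l, γ (Z l) = α (X l) * β (Y l)

/-- Two latin squares isotopic to groups which agree outside a small block are equal. -/
theorem ngc {Λ W : Type} [Fintype W] [DecidableEq W] (X X' Y Z : Λ → W) (R : Finset W) (c₁ : W)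
    (hXY : ∀ a b, ∃ l, X l = a ∧ Y l = b) (hX'Y : ∀ a b, ∃ l, X' l = a ∧ Y l = b)
    (hYZ : Function.Injective fun l => (Y l, Z l)) (P : Λ → Prop)
    (h1 : ∀ l, ¬ P l → X l = X' l) (h2 : ∀ l, P l → X l ∈ R ∧ X' l ∈ R ∧ Y l ≠ c₁)
    (hR : 2 * R.card < Fintype.card W) (hG : GB X Y Z) (hG' : GB X' Y Z) : ∀ l, X l = X' l := by
  classical
  intro l
  by_cases hl : P l
  swap
  · exact h1 l hl
  obtain ⟨G, hG1, α, β, γ, hg⟩ := hG
  obtain ⟨G', hG1', α', β', γ', hg'⟩ := hG'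
  -- the products at cells outside the block
  have key : ∀ x y x₁ y₁ : W, (x ∉ R ∨ y = c₁) → (x₁ ∉ R ∨ y₁ = c₁) →
      α x * β y = α x₁ * β y₁ → α' x * β' y = α' x₁ * β' y₁ := by
    intro x y x₁ y₁ hx hx₁ h
    obtain ⟨k, hk1, hk2⟩ := hXY x y
    obtain ⟨k₁, hk3, hk4⟩ := hXY x₁ y₁
    have hk : ¬ P k := by
      intro hp
      obtain ⟨h3, -, h5⟩ := h2 k hp
      rcases hx with h6 | h6
      · exact h6 (hk1 ▸ h3)
      · exact h5 (hk2.trans h6)
    have hk' : ¬ P k₁ := by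
      intro hp
      obtain ⟨h3, -, h5⟩ := h2 k₁ hp
      rcases hx₁ with h6 | h6
      · exact h6 (hk3 ▸ h3)
      · exact h5 (hk4.trans h6)
    have h3 : Z k = Z k₁ := by
      apply γ.injective
      rw [hg, hg, hk1, hk2, hk3, hk4, h]
    have h4 := hg' k
    have h5 := hg' k₁
    rw [← h1 k hk, hk1, hk2] at h4
    rw [← h1 k₁ hk', hk3, hk4, ← h3] at h5
    exact h4.symm.trans h5
  -- the rows of the quadrangle
  obtain ⟨r₁, hr₁⟩ : ∃ r₁, r₁ ∉ R := by
    by_contra hcon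
    push Not at hcon
    have h3 : (Finset.univ : Finset W) ⊆ R := fun w _ => hcon w
    have h4 := Finset.card_le_card h3
    rw [Finset.card_univ] at h4
    omega
  obtain ⟨f, hf⟩ : ∃ f : W ≃ W, ∀ s, α (f s) = α r₁ * (α (X l))⁻¹ * α s :=
    ⟨(α.trans (Equiv.mulLeft (α r₁ * (α (X l))⁻¹))).trans α.symm, fun s => by simp [mul_assoc]⟩
  obtain ⟨s, hs, hs₁⟩ : ∃ s, s ∉ R ∧ f s ∉ R := by
    by_contra hcon
    push Not at hcon
    have h3 : (Finset.univ : Finset W) ⊆ R ∪ R.map f.symm.toEmbedding := by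
      intro w _
      rw [Finset.mem_union]
      by_cases hw : w ∈ R
      · exact Or.inl hw
      · right
        rw [Finset.mem_map]
        exact ⟨f w, hcon w hw, by simp⟩
    have h4 := (Finset.card_le_card h3).trans (Finset.card_union_le _ _)
    rw [Finset.card_univ, Finset.card_map] at h4
    omega
  obtain ⟨d₁, hd₁⟩ := β.surjective ((α s)⁻¹ * (α (X l) * β c₁))
  obtain ⟨d, hd⟩ := β.surjective ((α s)⁻¹ * (α (X l) * β (Y l)))
  have e1 := key s d₁ (X l) c₁ (Or.inl hs) (Or.inr rfl) (by rw [hd₁]; group)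
  have e2 := key (f s) d₁ r₁ c₁ (Or.inl hs₁) (Or.inl hr₁) (by rw [hd₁, hf]; group)
  have e3 := key (f s) d r₁ (Y l) (Or.inl hs₁) (Or.inl hr₁) (by rw [hd, hf]; group)
  have e4 : α' s * β' d = α' (X l) * β' (Y l) := by
    have f1 : (α' (X l))⁻¹ * α' s = β' c₁ * (β' d₁)⁻¹ := by
      rw [eq_mul_inv_iff_mul_eq, mul_assoc, e1]
      group
    have f2 : (α' r₁)⁻¹ * α' (f s) = β' c₁ * (β' d₁)⁻¹ := by
      rw [eq_mul_inv_iff_mul_eq, mul_assoc, e2]
      group
    have f3 : (α' r₁)⁻¹ * α' (f s) = β' (Y l) * (β' d)⁻¹ := by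
      rw [eq_mul_inv_iff_mul_eq, mul_assoc, e3]
      group
    have f4 : (α' (X l))⁻¹ * α' s = β' (Y l) * (β' d)⁻¹ := by rw [f1, ← f2, f3]
    rw [eq_mul_inv_iff_mul_eq, mul_assoc, inv_mul_eq_iff_eq_mul] at f4
    exact f4
  obtain ⟨k, hk1, hk2⟩ := hXY s d
  obtain ⟨l', hl1, hl2⟩ := hX'Y (X l) (Y l)
  have hk : ¬ P k := by
    intro hp
    exact hs (hk1 ▸ (h2 k hp).1)
  have g1 : Z l = Z k := by
    apply γ.injective
    rw [hg, hg, hk1, hk2, hd]
    group
  have g2 : Z l' = Z k := by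
    apply γ'.injective
    rw [hg', hg', hl1, hl2, ← h1 k hk, hk1, hk2, e4]
  have g3 : l = l' := hYZ (Prod.ext hl2.symm (g1.trans g2.symm))
  rw [← g3] at hl1
  exact hl1.symm

end Pool.Agent.Lib_helper37.ML
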