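import Pool.Agent.Lib_helper37.ML.Wilson
import Pool.Agent.Lib_helper37.ML.NG
import Pool.Agent.Lib_helper65.MolsBase

/-!
# Wilson's squares with one modified subsquare
-/

set_option autoImplicit false

open Pool.Agent.Mols65

namespace Pool.Agent.Lib_helper37.ML

section

variable {t m u k : ℕ}

/-- The array of the blocks, with the first coordinate of one block permuted by `π`. -/
def Bp (A : Fin (k + 2) → Fin m × Fin m → Fin m) (π : Equiv.Perm (Fin m)) (x d : ZMod t)
    (j : Fin (k + 2)) (l : Fin m × Fin m) : Fin m :=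
  if j = 0 ∧ x = 0 ∧ d = (u : ZMod t) then π (A j l) else A j l

theorem Bp_inj (A : Fin (k + 2) → Fin m × Fin m → Fin m) (π : Equiv.Perm (Fin m))
    (hA : ∀ i j, i ≠ j → Function.Injective fun l => (A i l, A j l)) (x d : ZMod t)
    (i j : Fin (k + 2)) (hij : i ≠ j) :
    Function.Injective fun l => (Bp (u := u) A π x d i l, Bp (u := u) A π x d j l) := by
  have key : ∀ i l l', Bp (u := u) A π x d i l = Bp (u := u) A π x d i l' → A i l = A i l' := by
    intro i l l' h
    unfold Bp at h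
    split_ifs at h with h1
    · exact π.injective h
    · exact h
  intro l l' h
  have h1 := congrArg Prod.fst h
  have h2 := congrArg Prod.snd h
  exact hA i j hij (Prod.ext (key i l l' h1) (key j l l' h2))

end

theorem realizable_wilson (k m t u : ℕ) (hm : k < m) (hu0 : 0 < u) (hu : u < t)
    (ht : ∀ p : ℕ, p.Prime → p < k + 2 → ¬ p ∣ t) (hgm : Good (k + 2) m)
    (hgm1 : Good (k + 2) (m + 1)) (hgu : ∀ p : ℕ, p.Prime → p < k + 2 → ¬ p ∣ u) :
    Realizable (t * m + u) k := by
  classical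
  have : NeZero t := ⟨by omega⟩
  obtain ⟨A, lA, hA, -⟩ := (OA_good hgm).at ⟨0, by omega⟩
  obtain ⟨A', l₀, hA', h0⟩ := ((OA_good hgm1).equiv
    (Fintype.equivOfCardEq (by rw [Fintype.card_fin, Fintype.card_option, Fintype.card_fin]) :
      Fin (m + 1) ≃ Option (Fin m))).at none
  have hgu' : Good (k + 2) u := ⟨0, u, by rw [pow_zero, one_mul], hu0, Or.inl rfl, hgu⟩
  obtain ⟨D, lD, hD, -⟩ := (OA_good hgu').at ⟨0, hu0⟩
  have hunit : ∀ i j : Fin (k + 2), i ≠ j → IsUnit (((i : ℕ) : ZMod t) - ((j : ℕ) : ZMod t)) :=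
    fun i j hij => isUnit_sub ht i.2 j.2 (fun h => hij (Fin.ext h))
  have hinj : ∀ (π : Equiv.Perm (Fin m)) (i j : Fin (k + 2)), i ≠ j → Function.Injective
      fun l => (ZZ (l₀ := l₀) (Bp (t := t) (u := u) A π) A' D i l,
        ZZ (Bp (t := t) (u := u) A π) A' D j l) := by
    intro π i j hij
    exact ZZ_inj hu _ A' D (fun x d i j hij => Bp_inj A π hA x d i j hij) hA' h0 hD i j hij
      (hunit i j hij)
  have hcardL : Fintype.card (LL t m u l₀) = (t * m + u) ^ 2 := card_LL hu
  have hcardW : Fintype.card (WW t m u) = t * m + u := card_WW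
  have hbij : ∀ (π : Equiv.Perm (Fin m)) (i j : Fin (k + 2)), i ≠ j → ∀ a b, ∃ l,
      ZZ (l₀ := l₀) (Bp (t := t) (u := u) A π) A' D i l = a ∧
        ZZ (l₀ := l₀) (Bp (t := t) (u := u) A π) A' D j l = b := by
    intro π i j hij a b
    have h1 : Function.Bijective
        fun l => (ZZ (l₀ := l₀) (Bp (t := t) (u := u) A π) A' D i l,
        ZZ (l₀ := l₀) (Bp (t := t) (u := u) A π) A' D j l) := by
      rw [Fintype.bijective_iff_injective_and_card]
      refine ⟨hinj π i j hij, ?_⟩
      rw [Fintype.card_prod, hcardL, hcardW, sq]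
    obtain ⟨l, hl⟩ := h1.2 (a, b)
    exact ⟨l, congrArg Prod.fst hl, congrArg Prod.snd hl⟩
  -- the coordinates other than the first do not depend on `π`
  have hdep : ∀ (π π' : Equiv.Perm (Fin m)) (i : Fin (k + 2)), i ≠ 0 →
      ZZ (l₀ := l₀) (Bp (t := t) (u := u) A π) A' D i =
        ZZ (l₀ := l₀) (Bp (t := t) (u := u) A π') A' D i := by
    intro π π' i hi
    funext l
    rcases l with ⟨x, d, l⟩ | ⟨x, w, l⟩ | l
    · simp [ZZ, Bp, hi]
    · simp [ZZ]
    · simp [ZZ]
  have h01 : (0 : Fin (k + 2)) ≠ 1 := by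
    intro h
    have := congrArg Fin.val h
    simp at this
  have hsucc0 : ∀ i : Fin k, i.succ.succ ≠ 0 := fun i => Fin.succ_ne_zero _
  have hsucc1 : ∀ i : Fin k, i.succ.succ ≠ 1 := by
    intro i h
    have := congrArg Fin.val h
    simp at this
  have hsuccs : ∀ i j : Fin k, i ≠ j → i.succ.succ ≠ j.succ.succ := by
    intro i j hij h
    exact hij (Fin.succ_injective _ (Fin.succ_injective _ h))
  -- a good permutation
  obtain ⟨π, hπ⟩ : ∃ π : Equiv.Perm (Fin m), ∀ i : Fin k,
      ¬ GB (ZZ (l₀ := l₀) (Bp (t := t) (u := u) A π) A' D 0)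
        (ZZ (Bp (t := t) (u := u) A π) A' D 1)
        (ZZ (Bp (t := t) (u := u) A π) A' D i.succ.succ) := by
    by_contra hcon
    push Not at hcon
    choose g hg using hcon
    obtain ⟨π, π', hne, hgg⟩ : ∃ π π' : Equiv.Perm (Fin m), π ≠ π' ∧ g π = g π' := by
      have h1 : ¬ Function.Injective g := by
        intro hi
        have h2 := Fintype.card_le_of_injective g hi
        rw [Fintype.card_perm, Fintype.card_fin, Fintype.card_fin] at h2
        have h3 := Nat.self_le_factorial m
        omega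
      rw [Function.Injective] at h1
      push Not at h1
      obtain ⟨a, b, h2, h3⟩ := h1
      exact ⟨a, b, h3, h2⟩
    apply hne
    have h1 := hg π
    have h2 := hg π'
    rw [← hgg, hdep π' π 1 h01.symm, hdep π' π _ (hsucc0 _)] at h2
    have hval : ((u : ℕ) : ZMod t).val = u := ZMod.val_cast_of_lt hu
    obtain ⟨d₀, hd₀⟩ : ∃ d₀ : {d : ZMod t // ¬ d.val < u}, d₀.1 = (u : ZMod t) :=
      ⟨⟨(u : ZMod t), by rw [hval]; exact lt_irrefl u⟩, rfl⟩
    have h3 := ngc _ _ _ _
      ((Finset.univ : Finset (Fin m)).image fun v => (Sum.inl ((0 : ZMod t), v) : WW t m u))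
      (Sum.inr ⟨0, hu0⟩) (hbij π 0 1 h01)
      (by
        have h4 := hbij π' 0 1 h01
        rw [hdep π' π 1 h01.symm] at h4
        exact h4)
      (hinj π 1 (g π).succ.succ (hsucc1 _).symm)
      (fun l => ∃ l', l = Sum.inl ((0 : ZMod t), d₀, l')) ?_ ?_ ?_ h1 h2
    · -- the permutations are equal
      ext v
      have hs : Function.Bijective fun l => (A 0 l, A 1 l) := by
        rw [Fintype.bijective_iff_injective_and_card]
        exact ⟨hA 0 1 h01, rfl⟩
      obtain ⟨l', hl'⟩ := hs.2 (v, v)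
      have h4 := h3 (Sum.inl ((0 : ZMod t), d₀, l'))
      have h5 : A 0 l' = v := congrArg Prod.fst hl'
      simp only [ZZ, Bp, hd₀, true_and, and_self, if_true, h5, Sum.inl.injEq,
        Prod.mk.injEq] at h4
      rw [h4]
    · -- outside the block
      rintro (⟨x, d, l⟩ | ⟨x, w, l⟩ | l) hl
      · have h4 : ¬ (x = 0 ∧ d.1 = (u : ZMod t)) := by
          rintro ⟨rfl, h5⟩
          apply hl
          exact ⟨l, by rw [show d = d₀ from Subtype.ext (h5.trans hd₀.symm)]⟩
        simp only [ZZ, Bp, true_and, if_neg h4]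
      · simp [ZZ]
      · simp [ZZ]
    · -- inside the block
      rintro l ⟨l', rfl⟩
      refine ⟨?_, ?_, ?_⟩
      · rw [Finset.mem_image]
        refine ⟨π (A 0 l'), Finset.mem_univ _, ?_⟩
        simp [ZZ, Bp, hd₀]
      · rw [Finset.mem_image]
        refine ⟨π' (A 0 l'), Finset.mem_univ _, ?_⟩
        simp [ZZ, Bp, hd₀]
      · simp [ZZ]
    · rw [hcardW]
      have h4 : ((Finset.univ : Finset (Fin m)).image
          fun v => (Sum.inl ((0 : ZMod t), v) : WW t m u)).card ≤ m := by
        refine Finset.card_image_le.trans ?_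
        rw [Finset.card_univ, Fintype.card_fin]
      have h5 : 2 * m ≤ t * m := Nat.mul_le_mul_right m (by omega)
      omega
  have h1 := realizable_of_coords (n := t * m + u) (W := WW t m u) (Λ := LL t m u l₀)
    (ι := Fin k) hcardW hcardL
    (ZZ (l₀ := l₀) (Bp (t := t) (u := u) A π) A' D 0)
    (ZZ (Bp (t := t) (u := u) A π) A' D 1)
    (fun i => ZZ (Bp (t := t) (u := u) A π) A' D i.succ.succ)
    (hinj π 0 1 h01) (fun i => hinj π 0 _ (hsucc0 i).symm) (fun i => hinj π 1 _ (hsucc1 i).symm)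
    (fun i j hij => hinj π _ _ (hsuccs i j hij)) hπ
  rw [Fintype.card_fin] at h1
  exact h1

end Pool.Agent.Lib_helper37.ML
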