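import Pool.Agent.Lib_helper13.APTF.LB
import Pool.Agent.Lib_helper37.ML.Low2
import Pool.Agent.Lib_helper37.ML.Main

/-!
# Writing a large `n` as `t * m + u`
-/

set_option autoImplicit false

namespace Pool.Agent.Lib_helper37.ML

open Pool.Agent.APT Pool.Agent.Mols65

/-- One residue class modulo each prime, from divisibility conditions. -/
theorem class_fun (A : ℕ) (B : ℕ → ℕ) (z : ℕ)
    (hA : ∀ q : ℕ, q.Prime → q ≤ z → q ≠ 2 → Nat.Coprime A q) :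
    ∃ c : ℕ → ℕ, c 2 = 0 ∧ ∀ q : ℕ, q.Prime → q ≤ z → q ≠ 2 → ∀ t,
      (q ∣ A * t + B q ↔ t ≡ c q [MOD q]) := by
  have h : ∀ q : ℕ, ∃ r : ℕ, (q = 2 → r = 0) ∧ (q.Prime → q ≤ z → q ≠ 2 → ∀ t,
      (q ∣ A * t + B q ↔ t ≡ r [MOD q])) := by
    intro q
    by_cases hq : q.Prime ∧ q ≤ z ∧ q ≠ 2
    · obtain ⟨r, hr⟩ := LB_class A (B q) hq.1.pos (hA q hq.1 hq.2.1 hq.2.2)
      exact ⟨r, fun h => absurd h hq.2.2, fun _ _ _ => hr⟩
    · exact ⟨0, fun _ => rfl, fun h1 h2 h3 => absurd ⟨h1, h2, h3⟩ hq⟩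
  choose c hc1 hc2 using h
  exact ⟨c, hc1 2 rfl, hc2⟩

theorem coprime_two_pow {q : ℕ} (a : ℕ) (hq : q.Prime) (h2 : q ≠ 2) : Nat.Coprime (2 ^ a) q :=
  Nat.Coprime.pow_left a ((Nat.coprime_primes Nat.prime_two hq).2 (Ne.symm h2))

theorem select_m : ∃ (e X₀ : ℕ), 1 ≤ e ∧ ∀ k H : ℕ, 1 ≤ k → X₀ ≤ H → (k + 1) ^ e ≤ H →
    ∀ n : ℕ, ∃ m : ℕ, k < m ∧ m ≤ 2 * (k + 2) * H ∧ Good (k + 2) m ∧ Good (k + 2) (m + 1) ∧
      (n + m) % 2 = 1 ∧ (∀ q : ℕ, q.Prime → q ≤ k + 1 → q ≠ 2 → Nat.Coprime m q) ∧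
      (X₀ ≤ H → (k + 1) ^ e ≤ H → ∀ c : ℕ → ℕ, c 2 = 0 → ∀ s, ∃ t, s ≤ t ∧ t < s + H ∧
        ∀ q : ℕ, q.Prime → q ≤ k + 1 → ¬ q ∣ t ∧ ¬ t ≡ c q [MOD q]) := by
  obtain ⟨e, X₀, he, hs⟩ := sieve
  refine ⟨e, X₀, he, ?_⟩
  intro k H hk hX hz n
  have hsv : ∀ c : ℕ → ℕ, c 2 = 0 → ∀ s, ∃ t, s ≤ t ∧ t < s + H ∧
      ∀ q : ℕ, q.Prime → q ≤ k + 1 → ¬ q ∣ t ∧ ¬ t ≡ c q [MOD q] := by
    intro c hc s
    obtain ⟨t, h1, h2, h3⟩ := hs (fun _ => 0) c (by rw [hc]) s H (k + 1) hX (by omega) hz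
    refine ⟨t, h1, h2, fun q hq hqz => ?_⟩
    obtain ⟨h4, h5⟩ := h3 q hq hqz
    refine ⟨?_, h5⟩
    intro h6
    exact h4 ((Nat.modEq_zero_iff_dvd).2 h6)
  -- the power of two
  obtain ⟨a, ha1, ha2, ha0⟩ : ∃ a : ℕ, k + 2 ≤ 2 ^ a ∧ 2 ^ a ≤ 2 * (k + 2) ∧ 1 ≤ a := by
    refine ⟨Nat.log 2 (k + 2) + 1, ?_, ?_, by omega⟩
    · exact (Nat.lt_pow_succ_log_self (by norm_num) _).le
    · rw [pow_succ]
      have := Nat.pow_log_le_self 2 (x := k + 2) (by omega)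
      omega
  have heven : 2 ∣ 2 ^ a := dvd_pow_self 2 (by omega)
  rcases Nat.even_or_odd n with hn | hn
  · -- `n` even, `m + 1 = 2 ^ a * s`
    obtain ⟨c, hc2, hc⟩ := class_fun (2 ^ a) (fun q => q - 1) (k + 1)
      (fun q hq _ h2 => coprime_two_pow a hq h2)
    obtain ⟨s, hs1, hs2, hs3⟩ := hsv c hc2 1
    obtain ⟨b, hb⟩ : ∃ b, b = 2 ^ a * s := ⟨_, rfl⟩
    have hbk : k + 2 ≤ b := by
      rw [hb]
      calc k + 2 ≤ 2 ^ a * 1 := by omega
        _ ≤ 2 ^ a * s := Nat.mul_le_mul_left _ hs1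
    have hbu : b ≤ 2 * (k + 2) * H := by
      rw [hb]
      exact Nat.mul_le_mul ha2 (by omega)
    have hb2 : 2 ∣ b := by
      rw [hb]
      exact heven.mul_right s
    have hm : ∀ q : ℕ, q.Prime → q ≤ k + 1 → ¬ q ∣ (b - 1) := by
      intro q hq hqk hdv
      by_cases h2 : q = 2
      · subst h2
        omega
      · apply (hs3 q hq hqk).2
        rw [← hc q hq hqk h2 s]
        show q ∣ 2 ^ a * s + (q - 1)
        have h3 : 2 ^ a * s + (q - 1) = (b - 1) + q := by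
          have := hq.two_le
          omega
        rw [h3]
        exact hdv.add (dvd_refl q)
    refine ⟨b - 1, by omega, by omega, ?_, ?_, ?_, ?_, fun _ _ => hsv⟩
    · exact ⟨0, b - 1, by simp, by omega, Or.inl rfl, fun q hq hqk => hm q hq (by omega)⟩
    · rw [show b - 1 + 1 = b by omega]
      exact ⟨a, s, hb, hs1, Or.inr ha1, fun q hq hqk => (hs3 q hq (by omega)).1⟩
    · obtain ⟨n', hn'⟩ := hn
      omega
    · intro q hq hqk _
      exact ((Nat.Prime.coprime_iff_not_dvd hq).2 (hm q hq hqk)).symm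
  · -- `n` odd, `m = 2 ^ a * s`
    obtain ⟨c, hc2, hc⟩ := class_fun (2 ^ a) (fun q => 1) (k + 1)
      (fun q hq _ h2 => coprime_two_pow a hq h2)
    obtain ⟨s, hs1, hs2, hs3⟩ := hsv c hc2 1
    obtain ⟨b, hb⟩ : ∃ b, b = 2 ^ a * s := ⟨_, rfl⟩
    have hbk : k + 2 ≤ b := by
      rw [hb]
      calc k + 2 ≤ 2 ^ a * 1 := by omega
        _ ≤ 2 ^ a * s := Nat.mul_le_mul_left _ hs1
    have hbu : b ≤ 2 * (k + 2) * H := by
      rw [hb]
      exact Nat.mul_le_mul ha2 (by omega)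
    have hb2 : 2 ∣ b := by
      rw [hb]
      exact heven.mul_right s
    refine ⟨b, by omega, hbu, ?_, ?_, ?_, ?_, fun _ _ => hsv⟩
    · exact ⟨a, s, hb, hs1, Or.inr ha1, fun q hq hqk => (hs3 q hq (by omega)).1⟩
    · refine ⟨0, b + 1, by simp, by omega, Or.inl rfl, ?_⟩
      intro q hq hqk hdv
      by_cases h2 : q = 2
      · subst h2
        omega
      · apply (hs3 q hq (by omega)).2
        rw [← hc q hq (by omega) h2 s]
        show q ∣ 2 ^ a * s + 1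
        rw [← hb]
        exact hdv
    · obtain ⟨n', hn'⟩ := hn
      omega
    · intro q hq hqk h2
      rw [hb]
      exact Nat.Coprime.mul_left (coprime_two_pow a hq h2)
        ((Nat.Prime.coprime_iff_not_dvd hq).2 (hs3 q hq hqk).1).symm

/-- `k` mutually orthogonal latin squares, none isotopic to a group, for every large order. -/
theorem realizable_large : ∃ (e X₀ : ℕ), 1 ≤ e ∧ ∀ k H : ℕ, 1 ≤ k → X₀ ≤ H →
    (k + 1) ^ e ≤ H → ∀ n : ℕ, 2 * (k + 2) * H * (2 * (k + 2) * H + 1) * H < n →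
    Realizable n k := by
  obtain ⟨e, X₀, he, hsel⟩ := select_m
  refine ⟨e, X₀, he, ?_⟩
  intro k H hk hX hz n hn
  obtain ⟨m, hkm, hmu, hgm, hgm1, hpar, hcop, hsv⟩ := hsel k H hk hX hz n
  obtain ⟨c, hc2, hc⟩ := class_fun m (fun q => (q - 1) * n) (k + 1) hcop
  obtain ⟨t, ht1, ht2, ht3⟩ := hsv hX hz c hc2 (n / (m + 1) + 1)
  obtain ⟨q0, hq0⟩ : ∃ q0, q0 = n / (m + 1) := ⟨_, rfl⟩
  rw [← hq0] at ht1 ht2
  have h1 : q0 * (m + 1) ≤ n := by
    rw [hq0]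
    exact Nat.div_mul_le_self n (m + 1)
  have h2 : n < (q0 + 1) * (m + 1) := by
    rw [hq0]
    have := Nat.lt_div_mul_add (a := n) (b := m + 1) (by omega)
    linarith
  have hmH : m * (m + 1) * H < n := by
    refine lt_of_le_of_lt ?_ hn
    apply Nat.mul_le_mul_right
    apply Nat.mul_le_mul hmu
    omega
  have h3 : n < t * (m + 1) := lt_of_lt_of_le h2 (Nat.mul_le_mul_right _ ht1)
  have h4 : t * m < n := by
    have h5 : t ≤ q0 + H := by omega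
    have h6 : t * m ≤ (q0 + H) * m := Nat.mul_le_mul_right _ h5
    have h7 : (q0 + H) * m * (m + 1) < n * (m + 1) := by
      calc (q0 + H) * m * (m + 1) = q0 * (m + 1) * m + m * (m + 1) * H := by ring
        _ < n * m + n := by
            have h8 : q0 * (m + 1) * m ≤ n * m := Nat.mul_le_mul_right _ h1
            omega
        _ = n * (m + 1) := by ring
    have h8 : (q0 + H) * m < n := lt_of_mul_lt_mul_right h7 (Nat.zero_le _)
    omega
  obtain ⟨u, hu⟩ : ∃ u, n = t * m + u := ⟨n - t * m, by omega⟩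
  have hu0 : 0 < u := by omega
  have hut : u < t := by
    have h5 : t * (m + 1) = t * m + t := by ring
    omega
  have ht2' : ¬ 2 ∣ t := (ht3 2 Nat.prime_two (by omega)).1
  rw [hu]
  refine realizable_wilson k m t u hkm hu0 hut ?_ hgm hgm1 ?_
  · intro p hp hpk
    exact (ht3 p hp (by omega)).1
  · intro p hp hpk hdv
    by_cases h2 : p = 2
    · subst h2
      have h6 : t * m % 2 = m % 2 := by
        rw [Nat.mul_mod]
        have : t % 2 = 1 := by omega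
        rw [this]
        omega
      omega
    · apply (ht3 p hp (by omega)).2
      rw [← hc p hp (by omega) h2 t]
      show p ∣ m * t + (p - 1) * n
      obtain ⟨p', hp'⟩ : ∃ p', p = p' + 1 := ⟨p - 1, by have := hp.two_le; omega⟩
      have h7 : m * t + (p - 1) * n = p * (m * t) + (p - 1) * u := by
        rw [hu, hp']
        simp only [Nat.add_sub_cancel]
        ring
      rw [h7]
      exact (dvd_mul_right p _).add (hdv.mul_left _)

end Pool.Agent.Lib_helper37.ML
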