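import Mathlib

/-!
# Orthogonal arrays from rings
-/

set_option autoImplicit false

namespace Pool.Agent.Lib_helper37.ML

/-- An orthogonal array with `r` coordinates on `S`, with rows indexed by `S × S`, one of which is
constant. -/
def OA (S : Type) (r : ℕ) : Prop :=
  ∃ (A : Fin r → S × S → S) (s : S) (l : S × S),
    (∀ i j, i ≠ j → Function.Injective fun x => (A i x, A j x)) ∧ ∀ i, A i l = s

theorem OA.ring {R : Type} [CommRing R] {r : ℕ} (a : Fin r → R)
    (ha : ∀ i j, i ≠ j → IsUnit (a i - a j)) : OA R r := by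
  refine ⟨fun i x => x.1 + a i * x.2, 0, (0, 0), ?_, fun i => by simp⟩
  rintro i j hij ⟨x, d⟩ ⟨y, e⟩ h
  simp only [Prod.mk.injEq] at h
  have h1 : (a i - a j) * (d - e) = 0 := by linear_combination h.1 - h.2
  have h2 : d - e = 0 := (ha i j hij).mul_right_eq_zero.1 h1
  have h3 : d = e := sub_eq_zero.1 h2
  subst h3
  have h4 : x = y := add_right_cancel h.1
  rw [h4]

theorem OA.equiv {S S' : Type} {r : ℕ} (e : S ≃ S') (h : OA S r) : OA S' r := by
  obtain ⟨A, s, l, h1, h2⟩ := h
  refine ⟨fun i x => e (A i (e.symm x.1, e.symm x.2)), e s, (e l.1, e l.2), ?_, ?_⟩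
  · rintro i j hij ⟨x, d⟩ ⟨y, f⟩ h
    simp only [Prod.mk.injEq, EmbeddingLike.apply_eq_iff_eq] at h
    have h3 := h1 i j hij (a₁ := (e.symm x, e.symm d)) (a₂ := (e.symm y, e.symm f))
      (Prod.ext h.1 h.2)
    simp only [Prod.mk.injEq, EmbeddingLike.apply_eq_iff_eq] at h3
    rw [h3.1, h3.2]
  · intro i
    simp [h2 i]

/-- The constant can be prescribed. -/
theorem OA.at {S : Type} {r : ℕ} (h : OA S r) (s₀ : S) :
    ∃ (A : Fin r → S × S → S) (l : S × S),
      (∀ i j, i ≠ j → Function.Injective fun x => (A i x, A j x)) ∧ ∀ i, A i l = s₀ := by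
  classical
  obtain ⟨A, s, l, h1, h2⟩ := h
  refine ⟨fun i x => Equiv.swap s s₀ (A i x), l, ?_, ?_⟩
  · intro i j hij x y h
    simp only [Prod.mk.injEq, EmbeddingLike.apply_eq_iff_eq] at h
    exact h1 i j hij (Prod.ext h.1 h.2)
  · intro i
    show Equiv.swap s s₀ (A i l) = s₀
    rw [h2 i]
    exact Equiv.swap_apply_left s s₀

/-- Orders for which an orthogonal array with `r` coordinates comes from a ring. -/
def Good (r b : ℕ) : Prop :=
  ∃ a m : ℕ, b = 2 ^ a * m ∧ 0 < m ∧ (a = 0 ∨ r ≤ 2 ^ a) ∧ ∀ p : ℕ, p.Prime → p < r → ¬ p ∣ m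

theorem isUnit_sub {m r : ℕ} (hm : ∀ p : ℕ, p.Prime → p < r → ¬ p ∣ m) {i j : ℕ} (hi : i < r)
    (hj : j < r) (hij : i ≠ j) : IsUnit ((i : ZMod m) - (j : ZMod m)) := by
  have key : ∀ i j : ℕ, i < r → j < i → IsUnit ((i : ZMod m) - (j : ZMod m)) := by
    intro i j hi hj
    rw [← Nat.cast_sub hj.le]
    rw [ZMod.isUnit_iff_coprime]
    refine Nat.Coprime.symm (Nat.Coprime.symm (Nat.coprime_of_dvd ?_))
    intro p hp h1 h2
    exact hm p hp (lt_of_le_of_lt (Nat.le_of_dvd (by omega) h1) (by omega)) h2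
  rcases lt_or_gt_of_ne hij with h | h
  · have h1 := key j i hj h
    rw [← neg_sub]
    exact h1.neg
  · exact key i j hi h

theorem OA_good {r b : ℕ} (h : Good r b) : OA (Fin b) r := by
  classical
  obtain ⟨a, m, rfl, hm0, ha, hm⟩ := h
  have : NeZero m := ⟨hm0.ne'⟩
  rcases Nat.eq_zero_or_pos a with rfl | ha0
  · have h1 : OA (ZMod m) r :=
      OA.ring (fun i : Fin r => ((i : ℕ) : ZMod m)) (fun i j hij =>
        isUnit_sub hm i.2 j.2 (fun h => hij (Fin.ext h)))
    refine OA.equiv (Fintype.equivFinOfCardEq ?_) h1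
    rw [ZMod.card, pow_zero, one_mul]
  · have hr : r ≤ 2 ^ a := by
      rcases ha with h | h
      · omega
      · exact h
    have hcard : Nat.card (GaloisField 2 a) = 2 ^ a := GaloisField.card 2 a ha0.ne'
    have hfin : Finite (GaloisField 2 a) := Nat.finite_of_card_ne_zero (by rw [hcard]; positivity)
    have hF : Fintype (GaloisField 2 a) := Fintype.ofFinite _
    have hcard' : Fintype.card (GaloisField 2 a) = 2 ^ a := by
      rw [← Nat.card_eq_fintype_card, hcard]
    obtain ⟨f⟩ : Nonempty (Fin r ↪ GaloisField 2 a) := by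
      apply Function.Embedding.nonempty_of_card_le
      rw [Fintype.card_fin, hcard']
      exact hr
    have h1 : OA (GaloisField 2 a × ZMod m) r :=
      OA.ring (fun i : Fin r => (f i, ((i : ℕ) : ZMod m))) (fun i j hij => by
        rw [Prod.isUnit_iff]
        refine ⟨?_, ?_⟩
        · exact isUnit_iff_ne_zero.2 (sub_ne_zero.2 fun h => hij (f.injective h))
        · exact isUnit_sub hm i.2 j.2 (fun h => hij (Fin.ext h)))
    refine OA.equiv (Fintype.equivFinOfCardEq ?_) h1
    rw [Fintype.card_prod, hcard', ZMod.card]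

end Pool.Agent.Lib_helper37.ML
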