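import Pool.Agent.Lib_helper37.ML.NG
import Pool.Agent.Lib_helper65.MolsBase

/-!
# Direct products with one modified block
-/

set_option autoImplicit false

open Pool.Agent.Mols65

namespace Pool.Agent.Lib_helper37.ML

/-- An orthogonal array with `r` coordinates on `S`. -/
def OB (S : Type) (r : ℕ) : Prop :=
  ∃ A : Fin r → S × S → S, ∀ i j, i ≠ j → Function.Injective fun x => (A i x, A j x)

theorem OB.equiv {S S' : Type} {r : ℕ} (e : S ≃ S') (h : OB S r) : OB S' r := by
  obtain ⟨A, h1⟩ := h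
  refine ⟨fun i x => e (A i (e.symm x.1, e.symm x.2)), ?_⟩
  rintro i j hij ⟨x, d⟩ ⟨y, f⟩ h
  simp only [Prod.mk.injEq, EmbeddingLike.apply_eq_iff_eq] at h
  have h3 := h1 i j hij (a₁ := (e.symm x, e.symm d)) (a₂ := (e.symm y, e.symm f))
    (Prod.ext h.1 h.2)
  simp only [Prod.mk.injEq, EmbeddingLike.apply_eq_iff_eq] at h3
  rw [h3.1, h3.2]

theorem OB.prod {S T : Type} {r : ℕ} (h : OB S r) (h' : OB T r) : OB (S × T) r := by
  obtain ⟨A, h1⟩ := h
  obtain ⟨B, h2⟩ := h'
  refine ⟨fun i x => (A i (x.1.1, x.2.1), B i (x.1.2, x.2.2)), ?_⟩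
  rintro i j hij ⟨⟨x1, x2⟩, ⟨x3, x4⟩⟩ ⟨⟨y1, y2⟩, ⟨y3, y4⟩⟩ h
  simp only [Prod.mk.injEq] at h
  have h3 := h1 i j hij (a₁ := (x1, x3)) (a₂ := (y1, y3)) (Prod.ext h.1.1 h.2.1)
  have h4 := h2 i j hij (a₁ := (x2, x4)) (a₂ := (y2, y4)) (Prod.ext h.1.2 h.2.2)
  simp only [Prod.mk.injEq] at h3 h4
  rw [h3.1, h3.2, h4.1, h4.2]

/-- The array of a field. -/
theorem OB.field {F : Type} [Field F] {k : ℕ} (f : Fin (k + 1) ↪ F) : OB F (k + 2) := by
  refine ⟨Fin.cons (fun x => x.2) (fun i x => x.1 + f i * x.2), ?_⟩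
  have key : ∀ i : Fin (k + 1), Function.Injective
      fun x : F × F => (x.1 + f i * x.2, x.2) := by
    rintro i ⟨x, d⟩ ⟨y, e⟩ h
    simp only [Prod.mk.injEq] at h
    obtain ⟨h1, h2⟩ := h
    subst h2
    rw [add_right_cancel h1]
  intro i
  refine Fin.cases ?_ (fun i => ?_) i
  · intro j
    refine Fin.cases ?_ (fun j => ?_) j
    · intro h
      exact absurd rfl h
    · intro _ x y h
      simp only [Fin.cons_zero, Fin.cons_succ, Prod.mk.injEq] at h
      exact key j (Prod.ext h.2 h.1)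
  · intro j
    refine Fin.cases ?_ (fun j => ?_) j
    · intro _ x y h
      simp only [Fin.cons_zero, Fin.cons_succ, Prod.mk.injEq] at h
      exact key i (Prod.ext h.1 h.2)
    · rintro hij ⟨x, d⟩ ⟨y, e⟩ h
      simp only [Fin.cons_succ, Prod.mk.injEq] at h
      have hij' : i ≠ j := fun h => hij (by rw [h])
      have h1 : (f i - f j) * (d - e) = 0 := by linear_combination h.1 - h.2
      have h2 : f i - f j ≠ 0 := sub_ne_zero.2 fun h => hij' (f.injective h)
      have h3 : d = e := sub_eq_zero.1 ((mul_eq_zero.1 h1).resolve_left h2)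
      subst h3
      rw [add_right_cancel h.1]

/-- Coordinates of the cells of a family of orthogonal squares. -/
theorem OB.of_squares {S : Type} {k : ℕ} (Q : Fin k → Quasigroup S)
    (hQ : ∀ i j, i ≠ j → Orthogonal (Q i) (Q j)) : OB S (k + 2) := by
  refine ⟨Fin.cons (fun x => x.1) (Fin.cons (fun x => x.2) fun i x => (Q i).op x.1 x.2), ?_⟩
  have k1 : ∀ i x y, ((x : S × S).1, (Q i).op x.1 x.2) = ((y : S × S).1, (Q i).op y.1 y.2) →
      x = y := by
    rintro i ⟨x, d⟩ ⟨y, e⟩ h
    simp only [Prod.mk.injEq] at h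
    obtain ⟨h1, h2⟩ := h
    subst h1
    rw [(Q i).inj_left h2]
  have k2 : ∀ i x y, ((x : S × S).2, (Q i).op x.1 x.2) = ((y : S × S).2, (Q i).op y.1 y.2) →
      x = y := by
    rintro i ⟨x, d⟩ ⟨y, e⟩ h
    simp only [Prod.mk.injEq] at h
    obtain ⟨h1, h2⟩ := h
    subst h1
    rw [(Q i).inj_right h2]
  have hcase : ∀ i : Fin (k + 2), i = 0 ∨ i = 1 ∨ ∃ j : Fin k, i = j.succ.succ := by
    intro i
    refine Fin.cases (Or.inl rfl) (fun i => ?_) i
    refine Fin.cases (Or.inr (Or.inl rfl)) (fun i => ?_) i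
    exact Or.inr (Or.inr ⟨i, rfl⟩)
  have e1 : ∀ (f g : S × S → S) (h : Fin k → S × S → S),
      (Fin.cons f (Fin.cons g h) : Fin (k + 2) → S × S → S) 1 = g := fun f g h => rfl
  intro i j hij x y h
  rcases hcase i with rfl | rfl | ⟨i, rfl⟩
  · rcases hcase j with rfl | rfl | ⟨j, rfl⟩
    · exact absurd rfl hij
    · simp only [Fin.cons_zero, e1, Prod.mk.injEq] at h
      exact Prod.ext h.1 h.2
    · simp only [Fin.cons_zero, Fin.cons_succ] at h
      exact k1 j x y h
  · rcases hcase j with rfl | rfl | ⟨j, rfl⟩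
    · simp only [Fin.cons_zero, e1, Prod.mk.injEq] at h
      exact Prod.ext h.2 h.1
    · exact absurd rfl hij
    · simp only [e1, Fin.cons_succ] at h
      exact k2 j x y h
  · rcases hcase j with rfl | rfl | ⟨j, rfl⟩
    · simp only [Fin.cons_zero, Fin.cons_succ, Prod.mk.injEq] at h
      exact k1 i x y (Prod.ext h.2 h.1)
    · simp only [e1, Fin.cons_succ, Prod.mk.injEq] at h
      exact k2 i x y (Prod.ext h.2 h.1)
    · simp only [Fin.cons_succ] at h
      exact hQ i j (fun h' => hij (by rw [h'])) h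

section

variable {s t k : ℕ}

/-- The coordinates of the product, with the first one permuted in one block. -/
def PP (A : Fin (k + 2) → Fin s × Fin s → Fin s) (B : Fin (k + 2) → Fin t × Fin t → Fin t)
    (l₀ : Fin s × Fin s) (π : Equiv.Perm (Fin t)) (i : Fin (k + 2))
    (l : (Fin s × Fin s) × (Fin t × Fin t)) : Fin s × Fin t :=
  (A i l.1, if i = 0 ∧ l.1 = l₀ then π (B i l.2) else B i l.2)

end

/-- The direct product of two families of `k` orthogonal squares can be changed in one block so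
that no square of it is isotopic to a group. -/
theorem realizable_prod {s t k : ℕ} (hs : 3 ≤ s) (ht : k < t) (hA : OB (Fin s) (k + 2))
    (hB : OB (Fin t) (k + 2)) : Realizable (s * t) k := by
  classical
  obtain ⟨A, hA⟩ := hA
  obtain ⟨B, hB⟩ := hB
  obtain ⟨l₀, hl₀⟩ : ∃ l₀ : Fin s × Fin s, l₀ = (⟨0, by omega⟩, ⟨0, by omega⟩) := ⟨_, rfl⟩
  have hinj : ∀ (π : Equiv.Perm (Fin t)) (i j : Fin (k + 2)), i ≠ j → Function.Injective
      fun l => (PP A B l₀ π i l, PP A B l₀ π j l) := by
    rintro π i j hij ⟨l, l'⟩ ⟨m, m'⟩ h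
    simp only [PP, Prod.mk.injEq] at h
    have h1 : l = m := hA i j hij (Prod.ext h.1.1 h.2.1)
    subst h1
    have key : ∀ i : Fin (k + 2), (if i = 0 ∧ l = l₀ then π (B i l') else B i l') =
        (if i = 0 ∧ l = l₀ then π (B i m') else B i m') → B i l' = B i m' := by
      intro i h
      split_ifs at h
      · exact π.injective h
      · exact h
    have h2 : l' = m' := hB i j hij (Prod.ext (key i h.1.2) (key j h.2.2))
    rw [h2]
  have hcardL : Fintype.card ((Fin s × Fin s) × (Fin t × Fin t)) = (s * t) ^ 2 := by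
    simp only [Fintype.card_prod, Fintype.card_fin]
    ring
  have hcardW : Fintype.card (Fin s × Fin t) = s * t := by
    simp only [Fintype.card_prod, Fintype.card_fin]
  have hbij : ∀ (π : Equiv.Perm (Fin t)) (i j : Fin (k + 2)), i ≠ j → ∀ a b, ∃ l,
      PP A B l₀ π i l = a ∧ PP A B l₀ π j l = b := by
    intro π i j hij a b
    have h1 : Function.Bijective fun l => (PP A B l₀ π i l, PP A B l₀ π j l) := by
      rw [Fintype.bijective_iff_injective_and_card]
      refine ⟨hinj π i j hij, ?_⟩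
      rw [Fintype.card_prod (Fin s × Fin t), hcardL, hcardW, sq]
    obtain ⟨l, hl⟩ := h1.2 (a, b)
    exact ⟨l, congrArg Prod.fst hl, congrArg Prod.snd hl⟩
  have hdep : ∀ (π π' : Equiv.Perm (Fin t)) (i : Fin (k + 2)), i ≠ 0 →
      PP A B l₀ π i = PP A B l₀ π' i := by
    intro π π' i hi
    funext l
    simp [PP, hi]
  have h01 : (0 : Fin (k + 2)) ≠ 1 := by
    intro h
    have := congrArg Fin.val h
    simp at this
  have hsucc0 : ∀ i : Fin k, i.succ.succ ≠ 0 := fun i => Fin.succ_ne_zero _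
  have hsucc1 : ∀ i : Fin k, i.succ.succ ≠ 1 := by
    intro i h
    have := congrArg Fin.val h
    simp at this
  have hsuccs : ∀ i j : Fin k, i ≠ j → i.succ.succ ≠ j.succ.succ := by
    intro i j hij h
    exact hij (Fin.succ_injective _ (Fin.succ_injective _ h))
  obtain ⟨c₁, hc₁⟩ : ∃ c₁ : Fin s, c₁ ≠ A 1 l₀ := by
    by_cases h : A 1 l₀ = ⟨0, by omega⟩
    · exact ⟨⟨1, by omega⟩, by rw [h]; simp [Fin.ext_iff]⟩
    · exact ⟨⟨0, by omega⟩, Ne.symm h⟩
  -- a good permutation
  obtain ⟨π, hπ⟩ : ∃ π : Equiv.Perm (Fin t), ∀ i : Fin k,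
      ¬ GB (PP A B l₀ π 0) (PP A B l₀ π 1) (PP A B l₀ π i.succ.succ) := by
    by_contra hcon
    push Not at hcon
    choose g hg using hcon
    obtain ⟨π, π', hne, hgg⟩ : ∃ π π' : Equiv.Perm (Fin t), π ≠ π' ∧ g π = g π' := by
      have h1 : ¬ Function.Injective g := by
        intro hi
        have h2 := Fintype.card_le_of_injective g hi
        rw [Fintype.card_perm, Fintype.card_fin, Fintype.card_fin] at h2
        have h3 := Nat.self_le_factorial t
        omega
      rw [Function.Injective] at h1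
      push Not at h1
      obtain ⟨a, b, h2, h3⟩ := h1
      exact ⟨a, b, h3, h2⟩
    apply hne
    have h1 := hg π
    have h2 := hg π'
    rw [← hgg, hdep π' π 1 h01.symm, hdep π' π _ (hsucc0 _)] at h2
    have h3 := ngc _ _ _ _
      ((Finset.univ : Finset (Fin t)).image fun v => (A 0 l₀, v))
      (c₁, ⟨0, by omega⟩) (hbij π 0 1 h01)
      (by
        have h4 := hbij π' 0 1 h01
        rw [hdep π' π 1 h01.symm] at h4
        exact h4)
      (hinj π 1 (g π).succ.succ (hsucc1 _).symm)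
      (fun l => l.1 = l₀) ?_ ?_ ?_ h1 h2
    · -- the permutations are equal
      ext v
      have hsb : Function.Bijective fun l => (B 0 l, B 1 l) := by
        rw [Fintype.bijective_iff_injective_and_card]
        exact ⟨hB 0 1 h01, rfl⟩
      obtain ⟨l', hl'⟩ := hsb.2 (v, v)
      have h4 := h3 (l₀, l')
      have h5 : B 0 l' = v := congrArg Prod.fst hl'
      simp only [PP, and_self, if_true, h5, Prod.mk.injEq, true_and] at h4
      rw [h4]
    · intro l hl
      simp [PP, hl]
    · intro l hl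
      refine ⟨?_, ?_, ?_⟩
      · rw [Finset.mem_image]
        exact ⟨_, Finset.mem_univ _, by rw [PP, ← hl]⟩
      · rw [Finset.mem_image]
        exact ⟨_, Finset.mem_univ _, by rw [PP, ← hl]⟩
      · intro h4
        have h5 : A 1 l.1 = c₁ := congrArg Prod.fst h4
        rw [hl] at h5
        exact hc₁ h5.symm
    · rw [hcardW]
      have h4 : ((Finset.univ : Finset (Fin t)).image fun v => (A 0 l₀, v)).card ≤ t := by
        refine Finset.card_image_le.trans ?_
        rw [Finset.card_univ, Fintype.card_fin]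
      have h5 : 3 * t ≤ s * t := Nat.mul_le_mul_right t hs
      omega
  have h1 := realizable_of_coords (n := s * t) (W := Fin s × Fin t)
    (Λ := (Fin s × Fin s) × (Fin t × Fin t)) (ι := Fin k) hcardW hcardL
    (PP A B l₀ π 0) (PP A B l₀ π 1) (fun i => PP A B l₀ π i.succ.succ)
    (hinj π 0 1 h01) (fun i => hinj π 0 _ (hsucc0 i).symm) (fun i => hinj π 1 _ (hsucc1 i).symm)
    (fun i j hij => hinj π _ _ (hsuccs i j hij)) hπ
  rw [Fintype.card_fin] at h1
  exact h1

end Pool.Agent.Lib_helper37.ML
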