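import Pool.Agent.Lib_helper37.ML.OA

/-!
# Wilson's construction
-/

set_option autoImplicit false

namespace Pool.Agent.Lib_helper37.ML

/-- The point set: `t` columns of `m` points and `u` further points. -/
abbrev WW (t m u : ℕ) : Type := (ZMod t × Fin m) ⊕ Fin u

/-- The rows of the array: the blocks without a further point, the blocks with a further point
(without the row `l₀`), and the pairs of further points. -/
abbrev LL (t m u : ℕ) (l₀ : Option (Fin m) × Option (Fin m)) : Type :=
  (ZMod t × {d : ZMod t // ¬ d.val < u} × (Fin m × Fin m)) ⊕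
    ((ZMod t × Fin u × {l : Option (Fin m) × Option (Fin m) // l ≠ l₀}) ⊕ (Fin u × Fin u))

variable {t m u r : ℕ} {l₀ : Option (Fin m) × Option (Fin m)}

/-- The coordinates. -/
def ZZ (B : ZMod t → ZMod t → Fin r → Fin m × Fin m → Fin m)
    (A' : Fin r → Option (Fin m) × Option (Fin m) → Option (Fin m))
    (D : Fin r → Fin u × Fin u → Fin u) (i : Fin r) : LL t m u l₀ → WW t m u
  | Sum.inl (x, d, l) => Sum.inl (x + ((i : ℕ) : ZMod t) * d.1, B x d.1 i l)
  | Sum.inr (Sum.inl (x, w, l)) => (A' i l.1).elim (Sum.inr w)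
      (fun v => Sum.inl (x + ((i : ℕ) : ZMod t) * ((w : ℕ) : ZMod t), v))
  | Sum.inr (Sum.inr l) => Sum.inr (D i l)

theorem val_cast (hu : u < t) (w : Fin u) : ((w : ℕ) : ZMod t).val = (w : ℕ) :=
  ZMod.val_cast_of_lt (lt_trans w.2 hu)

theorem lines {i j : Fin r} (hunit : IsUnit (((i : ℕ) : ZMod t) - ((j : ℕ) : ZMod t)))
    {x d y e : ZMod t} (h1 : x + ((i : ℕ) : ZMod t) * d = y + ((i : ℕ) : ZMod t) * e)
    (h2 : x + ((j : ℕ) : ZMod t) * d = y + ((j : ℕ) : ZMod t) * e) : x = y ∧ d = e := by
  have h3 : (((i : ℕ) : ZMod t) - ((j : ℕ) : ZMod t)) * (d - e) = 0 := by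
    linear_combination h1 - h2
  have h4 : d - e = 0 := hunit.mul_right_eq_zero.1 h3
  have h5 : d = e := sub_eq_zero.1 h4
  subst h5
  exact ⟨add_right_cancel h1, rfl⟩

theorem ZZ_inj (hu : u < t) (B : ZMod t → ZMod t → Fin r → Fin m × Fin m → Fin m)
    (A' : Fin r → Option (Fin m) × Option (Fin m) → Option (Fin m))
    (D : Fin r → Fin u × Fin u → Fin u)
    (hB : ∀ x d i j, i ≠ j → Function.Injective fun l => (B x d i l, B x d j l))
    (hA' : ∀ i j, i ≠ j → Function.Injective fun l => (A' i l, A' j l))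
    (h0 : ∀ i, A' i l₀ = none)
    (hD : ∀ i j, i ≠ j → Function.Injective fun l => (D i l, D j l)) (i j : Fin r) (hij : i ≠ j)
    (hunit : IsUnit (((i : ℕ) : ZMod t) - ((j : ℕ) : ZMod t))) :
    Function.Injective fun l => (ZZ (l₀ := l₀) B A' D i l, ZZ B A' D j l) := by
  -- the three mixed cases
  have c12 : ∀ (x : ZMod t) (d : {d : ZMod t // ¬ d.val < u}) (l : Fin m × Fin m) (y : ZMod t)
      (w : Fin u) (l' : {l : Option (Fin m) × Option (Fin m) // l ≠ l₀}),
      ZZ (l₀ := l₀) B A' D i (Sum.inl (x, d, l)) = ZZ B A' D i (Sum.inr (Sum.inl (y, w, l'))) →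
      ZZ (l₀ := l₀) B A' D j (Sum.inl (x, d, l)) = ZZ B A' D j (Sum.inr (Sum.inl (y, w, l'))) →
      False := by
    intro x d l y w l' h1 h2
    simp only [ZZ] at h1 h2
    rcases hi : A' i l'.1 with _ | v
    · rw [hi] at h1
      simp at h1
    rcases hj : A' j l'.1 with _ | v'
    · rw [hj] at h2
      simp at h2
    rw [hi] at h1
    rw [hj] at h2
    simp only [Option.elim, Sum.inl.injEq, Prod.mk.injEq] at h1 h2
    have h3 := (lines hunit h1.1 h2.1).2
    apply d.2
    rw [h3, val_cast hu]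
    exact w.2
  have c13 : ∀ (x : ZMod t) (d : {d : ZMod t // ¬ d.val < u}) (l : Fin m × Fin m)
      (l' : Fin u × Fin u),
      ZZ (l₀ := l₀) B A' D i (Sum.inl (x, d, l)) = ZZ (l₀ := l₀) B A' D i (Sum.inr (Sum.inr l')) →
      False := by
    intro x d l l' h1
    simp [ZZ] at h1
  have c23 : ∀ (y : ZMod t)
      (w : Fin u) (l' : {l : Option (Fin m) × Option (Fin m) // l ≠ l₀}) (l : Fin u × Fin u),
      ZZ (l₀ := l₀) B A' D i (Sum.inr (Sum.inl (y, w, l'))) =
        ZZ (l₀ := l₀) B A' D i (Sum.inr (Sum.inr l)) →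
      ZZ (l₀ := l₀) B A' D j (Sum.inr (Sum.inl (y, w, l'))) =
        ZZ (l₀ := l₀) B A' D j (Sum.inr (Sum.inr l)) →
      False := by
    intro y w l' l h1 h2
    simp only [ZZ] at h1 h2
    rcases hi : A' i l'.1 with _ | v
    swap
    · rw [hi] at h1
      simp at h1
    rcases hj : A' j l'.1 with _ | v'
    swap
    · rw [hj] at h2
      simp at h2
    apply l'.2
    apply hA' i j hij
    show (A' i l'.1, A' j l'.1) = (A' i l₀, A' j l₀)
    rw [hi, hj, h0, h0]
  rintro (⟨x, d, l⟩ | ⟨x, w, l⟩ | l) (⟨y, e, l'⟩ | ⟨y, w', l'⟩ | l') h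
  · have h1 := congrArg Prod.fst h
    have h2 := congrArg Prod.snd h
    simp only [ZZ, Sum.inl.injEq, Prod.mk.injEq] at h1 h2
    obtain ⟨h3, h4⟩ := lines hunit h1.1 h2.1
    have h5 : d = e := Subtype.ext h4
    subst h3
    subst h5
    have h6 := hB x d.1 i j hij (Prod.ext h1.2 h2.2)
    rw [h6]
  · exact (c12 _ _ _ _ _ _ (congrArg Prod.fst h) (congrArg Prod.snd h)).elim
  · exact (c13 _ _ _ _ (congrArg Prod.fst h)).elim
  · exact (c12 _ _ _ _ _ _ (congrArg Prod.fst h).symm (congrArg Prod.snd h).symm).elim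
  · have h1 := congrArg Prod.fst h
    have h2 := congrArg Prod.snd h
    simp only [ZZ] at h1 h2
    have hfin : x = y → w = w' → A' i l.1 = A' i l'.1 → A' j l.1 = A' j l'.1 →
        (Sum.inr (Sum.inl (x, w, l)) : LL t m u l₀) = Sum.inr (Sum.inl (y, w', l')) := by
      intro g1 g2 g3 g4
      have g5 : l = l' := Subtype.ext (hA' i j hij (Prod.ext g3 g4))
      rw [g1, g2, g5]
    rcases hi : A' i l.1 with _ | v
    · rcases hi' : A' i l'.1 with _ | v'
      swap
      · rw [hi, hi'] at h1
        simp at h1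
      rw [hi, hi'] at h1
      simp only [Option.elim, Sum.inr.injEq] at h1
      subst h1
      rcases hj : A' j l.1 with _ | v
      · exfalso
        apply l.2
        apply hA' i j hij
        show (A' i l.1, A' j l.1) = (A' i l₀, A' j l₀)
        rw [hi, hj, h0, h0]
      rcases hj' : A' j l'.1 with _ | v'
      · rw [hj, hj'] at h2
        simp at h2
      rw [hj, hj'] at h2
      simp only [Option.elim, Sum.inl.injEq, Prod.mk.injEq] at h2
      exact hfin (add_right_cancel h2.1) rfl (by rw [hi, hi']) (by rw [hj, hj', h2.2])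
    · rcases hi' : A' i l'.1 with _ | v'
      · rw [hi, hi'] at h1
        simp at h1
      rw [hi, hi'] at h1
      simp only [Option.elim, Sum.inl.injEq, Prod.mk.injEq] at h1
      rcases hj : A' j l.1 with _ | v₁
      · rcases hj' : A' j l'.1 with _ | v₂
        swap
        · rw [hj, hj'] at h2
          simp at h2
        rw [hj, hj'] at h2
        simp only [Option.elim, Sum.inr.injEq] at h2
        subst h2
        exact hfin (add_right_cancel h1.1) rfl (by rw [hi, hi', h1.2]) (by rw [hj, hj'])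
      · rcases hj' : A' j l'.1 with _ | v₂
        · rw [hj, hj'] at h2
          simp at h2
        rw [hj, hj'] at h2
        simp only [Option.elim, Sum.inl.injEq, Prod.mk.injEq] at h2
        obtain ⟨g1, g2⟩ := lines hunit h1.1 h2.1
        have g3 : w = w' := by
          have g4 := congrArg ZMod.val g2
          rw [val_cast hu, val_cast hu] at g4
          exact Fin.ext g4
        exact hfin g1 g3 (by rw [hi, hi', h1.2]) (by rw [hj, hj', h2.2])
  · exact (c23 _ _ _ _ (congrArg Prod.fst h) (congrArg Prod.snd h)).elim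
  · exact (c13 _ _ _ _ (congrArg Prod.fst h).symm).elim
  · exact (c23 _ _ _ _ (congrArg Prod.fst h).symm (congrArg Prod.snd h).symm).elim
  · have h1 := congrArg Prod.fst h
    have h2 := congrArg Prod.snd h
    simp only [ZZ, Sum.inr.injEq] at h1 h2
    rw [hD i j hij (Prod.ext h1 h2)]

theorem card_low [NeZero t] (hu : u < t) : Fintype.card {d : ZMod t // d.val < u} = u := by
  have e : Fin u ≃ {d : ZMod t // d.val < u} :=
    { toFun := fun w => ⟨((w : ℕ) : ZMod t), by rw [val_cast hu]; exact w.2⟩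
      invFun := fun d => ⟨d.1.val, d.2⟩
      left_inv := fun w => Fin.ext (val_cast hu w)
      right_inv := fun d => Subtype.ext (by simp) }
  rw [← Fintype.card_congr e, Fintype.card_fin]

theorem card_LL [NeZero t] (hu : u < t) : Fintype.card (LL t m u l₀) = (t * m + u) ^ 2 := by
  classical
  have h1 : Fintype.card {d : ZMod t // ¬ d.val < u} = t - u := by
    rw [Fintype.card_subtype_compl, card_low hu, ZMod.card]
  have h2 : Fintype.card {l : Option (Fin m) × Option (Fin m) // l ≠ l₀} = m * m + 2 * m := by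
    have h3 := Fintype.card_subtype_compl (fun l : Option (Fin m) × Option (Fin m) => l = l₀)
    rw [Fintype.card_subtype_eq, Fintype.card_prod, Fintype.card_option, Fintype.card_fin] at h3
    rw [h3]
    have h4 : (m + 1) * (m + 1) = m * m + 2 * m + 1 := by ring
    omega
  simp only [Fintype.card_sum, Fintype.card_prod, ZMod.card, Fintype.card_fin, h1, h2]
  obtain ⟨v, rfl⟩ : ∃ v, t = u + v := ⟨t - u, by omega⟩
  have h3 : u + v - u = v := by omega
  rw [h3]
  ring

theorem card_WW [NeZero t] : Fintype.card (WW t m u) = t * m + u := by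
  simp only [Fintype.card_sum, Fintype.card_prod, ZMod.card, Fintype.card_fin]

end Pool.Agent.Lib_helper37.ML
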